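import Mathlib

/-! A rock-paper-scissors map of the two-dimensional sphere: the ambient map. -/

set_option autoImplicit false
open Metric Module Filter Topology
open scoped Manifold ContDiff

namespace Pool.Agent.P8H77.EE

/-- three-dimensional Euclidean space -/
abbrev E3 := EuclideanSpace ℝ (Fin 3)

/-- the unit sphere -/
abbrev S2 := sphere (0 : E3) 1

/-- the factor `1 + (s_{i+1}^2 - s_{i+2}^2)/2` -/
noncomputable def G (s : E3) (i : Fin 3) : ℝ := 1 + (1 / 2) * (s (i + 1) ^ 2 - s (i + 2) ^ 2)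

/-- the ambient map `s_i ↦ s_i (1 + (s_{i+1}^2 - s_{i+2}^2)/2)^{1/2}` -/
noncomputable def F (s : E3) : E3 := WithLp.toLp 2 fun i => s i * Real.sqrt (G s i)

lemma F_apply (s : E3) (i : Fin 3) : F s i = s i * Real.sqrt (G s i) := rfl

lemma nsq (s : E3) : ‖s‖ ^ 2 = s 0 ^ 2 + s 1 ^ 2 + s 2 ^ 2 := by
  rw [EuclideanSpace.norm_sq_eq]
  simp [Fin.sum_univ_three]

lemma G0 (s : E3) : G s 0 = 1 + (1 / 2) * (s 1 ^ 2 - s 2 ^ 2) := rfl
lemma G1 (s : E3) : G s 1 = 1 + (1 / 2) * (s 2 ^ 2 - s 0 ^ 2) := rfl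
lemma G2 (s : E3) : G s 2 = 1 + (1 / 2) * (s 0 ^ 2 - s 1 ^ 2) := rfl

/-- the region where all the factors are positive -/
def U : Set E3 := {s | ∀ i, 0 < G s i}

lemma contG (i : Fin 3) : Continuous fun s : E3 => G s i := by
  unfold G; fun_prop

lemma isOpen_U : IsOpen U := by
  have : U = ⋂ i, {s | 0 < G s i} := by ext s; simp [U]
  rw [this]
  exact isOpen_iInter_of_finite fun i => isOpen_lt continuous_const (contG i)

lemma mem_U {s : E3} (h : ‖s‖ = 1) : s ∈ U := by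
  have h1 := nsq s
  rw [h] at h1
  intro i
  fin_cases i
  · show 0 < G s 0
    rw [G0]; nlinarith [sq_nonneg (s 0), sq_nonneg (s 1), sq_nonneg (s 2)]
  · show 0 < G s 1
    rw [G1]; nlinarith [sq_nonneg (s 0), sq_nonneg (s 1), sq_nonneg (s 2)]
  · show 0 < G s 2
    rw [G2]; nlinarith [sq_nonneg (s 0), sq_nonneg (s 1), sq_nonneg (s 2)]

lemma F_sq {s : E3} (h : s ∈ U) (i : Fin 3) : F s i ^ 2 = s i ^ 2 * G s i := by
  rw [F_apply, mul_pow, Real.sq_sqrt (h i).le]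

lemma F_norm {s : E3} (h : s ∈ U) : ‖F s‖ = ‖s‖ := by
  have h1 : ‖F s‖ ^ 2 = ‖s‖ ^ 2 := by
    rw [nsq, nsq, F_sq h, F_sq h, F_sq h, G0, G1, G2]; ring
  exact (sq_eq_sq₀ (norm_nonneg _) (norm_nonneg _)).1 h1

/-- the derivative of `F` -/
noncomputable def DF (s : E3) : E3 →L[ℝ] E3 :=
  (EuclideanSpace.equiv (Fin 3) ℝ).symm.toContinuousLinearMap.comp
    (ContinuousLinearMap.pi fun i =>
      Real.sqrt (G s i) • (EuclideanSpace.proj i : E3 →L[ℝ] ℝ) +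
      (s i * (1 / (2 * Real.sqrt (G s i)))) •
        (s (i + 1) • (EuclideanSpace.proj (i + 1) : E3 →L[ℝ] ℝ) -
          s (i + 2) • (EuclideanSpace.proj (i + 2) : E3 →L[ℝ] ℝ)))

lemma DF_apply (s u : E3) (i : Fin 3) : DF s u i = Real.sqrt (G s i) * u i +
    s i * (1 / (2 * Real.sqrt (G s i))) * (s (i + 1) * u (i + 1) - s (i + 2) * u (i + 2)) := by
  simp [DF]

lemma contDiffAt_F {s : E3} (h : s ∈ U) : ContDiffAt ℝ ω F s := by
  rw [contDiffAt_euclidean]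
  intro i
  simp only [F_apply]
  refine ContDiffAt.mul (by fun_prop) (ContDiffAt.sqrt ?_ (h i).ne')
  unfold G; fun_prop

lemma hasFDerivAt_F {s : E3} (h : s ∈ U) : HasFDerivAt F (DF s) s := by
  rw [← hasFDerivWithinAt_univ, hasFDerivWithinAt_euclidean]
  intro i
  rw [hasFDerivWithinAt_univ]
  have hp : ∀ j : Fin 3, HasFDerivAt (fun t : E3 => t j) (EuclideanSpace.proj j : E3 →L[ℝ] ℝ) s :=
    fun j => (EuclideanSpace.proj j : E3 →L[ℝ] ℝ).hasFDerivAt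
  have hG : HasFDerivAt (fun t : E3 => G t i)
      (s (i + 1) • (EuclideanSpace.proj (i + 1) : E3 →L[ℝ] ℝ) -
          s (i + 2) • (EuclideanSpace.proj (i + 2) : E3 →L[ℝ] ℝ)) s := by
    have h1 := ((((hp (i + 1)).pow 2).sub ((hp (i + 2)).pow 2)).const_mul (1 / 2)).const_add 1
    refine h1.congr_fderiv ?_
    ext u
    simp
    ring
  have h2 := (hp i).mul (hG.sqrt (h i).ne')
  refine HasFDerivAt.congr_fderiv (f := fun x => (F x) i) (h2.congr_of_eventuallyEq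
    (Eventually.of_forall fun x => ?_)) ?_
  · rfl
  · ext u
    show s i * (1 / (2 * Real.sqrt (G s i)) * (s (i + 1) * u (i + 1) - s (i + 2) * u (i + 2))) +
      Real.sqrt (G s i) * u i = DF s u i
    rw [DF_apply]
    ring

lemma DF_inj {s : E3} (h : s ∈ U) {v : E3} (hv : DF s v = 0) : v = 0 := by
  have e : ∀ i, 2 * (v i * G s i) + s i * (s (i + 1) * v (i + 1) - s (i + 2) * v (i + 2)) = 0 := by
    intro i
    have h1 := DF_apply s v i
    rw [hv] at h1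
    have h2 : (0 : ℝ) = Real.sqrt (G s i) * v i +
      s i * (1 / (2 * Real.sqrt (G s i))) * (s (i + 1) * v (i + 1) - s (i + 2) * v (i + 2)) := h1
    have h3 : 0 < Real.sqrt (G s i) := Real.sqrt_pos.2 (h i)
    have h4 : Real.sqrt (G s i) * Real.sqrt (G s i) = G s i := Real.mul_self_sqrt (h i).le
    have h5 : 2 * (v i * G s i) + s i * (s (i + 1) * v (i + 1) - s (i + 2) * v (i + 2)) =
      2 * Real.sqrt (G s i) * (Real.sqrt (G s i) * v i +
      s i * (1 / (2 * Real.sqrt (G s i))) * (s (i + 1) * v (i + 1) - s (i + 2) * v (i + 2))) := by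
      rw [← h4]
      simp only [Real.sqrt_mul_self h3.le]
      field_simp
    rw [h5, ← h2, mul_zero]
  have e0 : 2 * (v 0 * G s 0) + s 0 * (s 1 * v 1 - s 2 * v 2) = 0 := e 0
  have e1 : 2 * (v 1 * G s 1) + s 1 * (s 2 * v 2 - s 0 * v 0) = 0 := e 1
  have e2 : 2 * (v 2 * G s 2) + s 2 * (s 0 * v 0 - s 1 * v 1) = 0 := e 2
  have key : v 0 ^ 2 * G s 0 + v 1 ^ 2 * G s 1 + v 2 ^ 2 * G s 2 = 0 := by
    linear_combination (v 0 / 2) * e0 + (v 1 / 2) * e1 + (v 2 / 2) * e2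
  have p0 : 0 ≤ v 0 ^ 2 * G s 0 := mul_nonneg (sq_nonneg _) (h 0).le
  have p1 : 0 ≤ v 1 ^ 2 * G s 1 := mul_nonneg (sq_nonneg _) (h 1).le
  have p2 : 0 ≤ v 2 ^ 2 * G s 2 := mul_nonneg (sq_nonneg _) (h 2).le
  have q : ∀ i, v i ^ 2 * G s i = 0 → v i = 0 := by
    intro i hi
    rcases mul_eq_zero.1 hi with h1 | h1
    · exact pow_eq_zero_iff two_ne_zero |>.1 h1
    · exact absurd h1 (h i).ne'
  ext i
  fin_cases i
  · exact q 0 (by linarith)
  · exact q 1 (by linarith)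
  · exact q 2 (by linarith)

/-- the derivative as a linear equivalence -/
noncomputable def DFe {s : E3} (h : s ∈ U) : E3 ≃L[ℝ] E3 :=
  (LinearEquiv.ofInjectiveEndo (DF s).toLinearMap
    (by
      intro a b hab
      have : DF s (a - b) = 0 := by
        rw [map_sub, sub_eq_zero]; exact hab
      exact sub_eq_zero.1 (DF_inj h this))).toContinuousLinearEquiv

lemma DFe_coe {s : E3} (h : s ∈ U) : ((DFe h : E3 ≃L[ℝ] E3) : E3 →L[ℝ] E3) = DF s := by
  ext u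
  rfl

/-- injectivity on the sphere -/
lemma F_injOn {s t : E3} (hs : ‖s‖ = 1) (ht : ‖t‖ = 1) (h : F s = F t) : s = t := by
  have us := mem_U hs
  have ut := mem_U ht
  have n1 := nsq s
  have n2 := nsq t
  rw [hs] at n1
  rw [ht] at n2
  have e : ∀ i, s i ^ 2 * G s i = t i ^ 2 * G t i := by
    intro i
    rw [← F_sq us, ← F_sq ut, h]
  have e0 := e 0
  have e1 := e 1
  have e2 := e 2
  rw [G0, G0] at e0
  rw [G1, G1] at e1
  rw [G2, G2] at e2
  -- squares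
  obtain ⟨x0, hx0⟩ : ∃ x, x = s 0 ^ 2 := ⟨_, rfl⟩
  obtain ⟨x1, hx1⟩ : ∃ x, x = s 1 ^ 2 := ⟨_, rfl⟩
  obtain ⟨x2, hx2⟩ : ∃ x, x = s 2 ^ 2 := ⟨_, rfl⟩
  obtain ⟨y0, hy0⟩ : ∃ x, x = t 0 ^ 2 := ⟨_, rfl⟩
  obtain ⟨y1, hy1⟩ : ∃ x, x = t 1 ^ 2 := ⟨_, rfl⟩
  obtain ⟨y2, hy2⟩ : ∃ x, x = t 2 ^ 2 := ⟨_, rfl⟩
  have a0 : 0 ≤ x0 := by rw [hx0]; positivity
  have a1 : 0 ≤ x1 := by rw [hx1]; positivity
  have a2 : 0 ≤ x2 := by rw [hx2]; positivity
  have b0 : 0 ≤ y0 := by rw [hy0]; positivity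
  have b1 : 0 ≤ y1 := by rw [hy1]; positivity
  have b2 : 0 ≤ y2 := by rw [hy2]; positivity
  rw [← hx0, ← hx1, ← hx2] at e0 e1 e2 n1
  rw [← hy0, ← hy1, ← hy2] at e0 e1 e2 n2
  have hm : ∀ (m u c : ℝ), (m = 0 → u = 0) → u / m * (m * c) = u * c := by
    intro m u c hmu
    by_cases hm : m = 0
    · rw [hm, hmu hm]; simp
    · field_simp
  have z0 : (x0 + y0) / 2 = 0 → x0 - y0 = 0 := fun h => by
    have : x0 = 0 := by linarith
    have : y0 = 0 := by linarith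
    linarith
  have z1 : (x1 + y1) / 2 = 0 → x1 - y1 = 0 := fun h => by
    have : x1 = 0 := by linarith
    have : y1 = 0 := by linarith
    linarith
  have z2 : (x2 + y2) / 2 = 0 → x2 - y2 = 0 := fun h => by
    have : x2 = 0 := by linarith
    have : y2 = 0 := by linarith
    linarith
  have f0 : (x0 - y0) * (1 + 1 / 2 * ((x1 + y1) / 2 - (x2 + y2) / 2)) +
      (x0 + y0) / 2 * (1 / 2 * ((x1 - y1) - (x2 - y2))) = 0 := by linear_combination e0
  have f1 : (x1 - y1) * (1 + 1 / 2 * ((x2 + y2) / 2 - (x0 + y0) / 2)) +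
      (x1 + y1) / 2 * (1 / 2 * ((x2 - y2) - (x0 - y0))) = 0 := by linear_combination e1
  have f2 : (x2 - y2) * (1 + 1 / 2 * ((x0 + y0) / 2 - (x1 + y1) / 2)) +
      (x2 + y2) / 2 * (1 / 2 * ((x0 - y0) - (x1 - y1))) = 0 := by linear_combination e2
  have g0 := hm _ _ (1 / 2 * ((x1 - y1) - (x2 - y2))) z0
  have g1 := hm _ _ (1 / 2 * ((x2 - y2) - (x0 - y0))) z1
  have g2 := hm _ _ (1 / 2 * ((x0 - y0) - (x1 - y1))) z2
  have key : (x0 - y0) / ((x0 + y0) / 2) * (x0 - y0) *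
        (1 + 1 / 2 * ((x1 + y1) / 2 - (x2 + y2) / 2)) +
      (x1 - y1) / ((x1 + y1) / 2) * (x1 - y1) * (1 + 1 / 2 * ((x2 + y2) / 2 - (x0 + y0) / 2)) +
      (x2 - y2) / ((x2 + y2) / 2) * (x2 - y2) * (1 + 1 / 2 * ((x0 + y0) / 2 - (x1 + y1) / 2))
      = 0 := by
    linear_combination (x0 - y0) / ((x0 + y0) / 2) * f0 + (x1 - y1) / ((x1 + y1) / 2) * f1 +
      (x2 - y2) / ((x2 + y2) / 2) * f2 - g0 - g1 - g2
  have r : ∀ (m u c : ℝ), (m = 0 → u = 0) → 0 ≤ m → 0 < c → 0 ≤ u / m * u * c ∧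
      (u / m * u * c = 0 → u = 0) := by
    intro m u c hmu hm0 hc
    have h1 : u / m * u * c = u ^ 2 / m * c := by ring
    rw [h1]
    refine ⟨by positivity, fun h2 => ?_⟩
    rcases mul_eq_zero.1 h2 with h3 | h3
    · rcases div_eq_zero_iff.1 h3 with h4 | h4
      · exact pow_eq_zero_iff two_ne_zero |>.1 h4
      · exact hmu h4
    · exact absurd h3 hc.ne'
  obtain ⟨r0, t0⟩ := r _ _ (1 + 1 / 2 * ((x1 + y1) / 2 - (x2 + y2) / 2)) z0 (by linarith)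
    (by linarith)
  obtain ⟨r1, t1⟩ := r _ _ (1 + 1 / 2 * ((x2 + y2) / 2 - (x0 + y0) / 2)) z1 (by linarith)
    (by linarith)
  obtain ⟨r2, t2⟩ := r _ _ (1 + 1 / 2 * ((x0 + y0) / 2 - (x1 + y1) / 2)) z2 (by linarith)
    (by linarith)
  have q0 : x0 = y0 := by linarith [t0 (by linarith)]
  have q1 : x1 = y1 := by linarith [t1 (by linarith)]
  have q2 : x2 = y2 := by linarith [t2 (by linarith)]
  have hG : ∀ i, G s i = G t i := by
    intro i
    fin_cases i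
    · show G s 0 = G t 0
      rw [G0, G0, ← hx1, ← hx2, ← hy1, ← hy2, q1, q2]
    · show G s 1 = G t 1
      rw [G1, G1, ← hx0, ← hx2, ← hy0, ← hy2, q0, q2]
    · show G s 2 = G t 2
      rw [G2, G2, ← hx0, ← hx1, ← hy0, ← hy1, q0, q1]
  ext i
  have h1 : F s i = F t i := by rw [h]
  rw [F_apply, F_apply, hG i] at h1
  exact mul_right_cancel₀ (Real.sqrt_pos.2 (ut i)).ne' h1

end Pool.Agent.P8H77.EE
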