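import Mathlib

/-!
# Characteristic exponents and entropy: the definitions

`M` is a manifold (with tangent spaces `TangentSpace I x`), `f : M ≃ M` an invertible map which is
assumed differentiable in the applications, `g` a Riemannian metric.
-/

set_option autoImplicit false
open MeasureTheory Filter Topology
open scoped Manifold ContDiff ENNReal

namespace Pool.Agent.P8H77.EE

section Exponents

variable {E H M : Type*} [NormedAddCommGroup E] [NormedSpace ℝ E] [TopologicalSpace H]
  (I : ModelWithCorners ℝ E H) [TopologicalSpace M] [ChartedSpace H M]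

/-- The norm `‖T_x f^n u‖` of the image of the tangent vector `u` at `x` under the derivative of the
`n`-th iterate of `f` (`n` an integer), for the Riemannian metric `g`. -/
noncomputable def iterNorm (g : Bundle.RiemannianMetric (fun x : M => TangentSpace I x))
    (f : Equiv.Perm M) (n : ℤ) (x : M) (u : TangentSpace I x) : ℝ :=
  Real.sqrt (g.inner ((f ^ n) x) (mfderiv I I (⇑(f ^ n)) x u) (mfderiv I I (⇑(f ^ n)) x u))

/-- `lim_{n → ±∞} (1/n) log ‖T_x f^n u‖ = c` -/
def HasExponent (g : Bundle.RiemannianMetric (fun x : M => TangentSpace I x)) (f : Equiv.Perm M)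
    (x : M) (u : TangentSpace I x) (c : ℝ) : Prop :=
  Tendsto (fun n : ℤ => 1 / (n : ℝ) * Real.log (iterNorm I g f n x u)) atTop (𝓝 c) ∧
    Tendsto (fun n : ℤ => 1 / (n : ℝ) * Real.log (iterNorm I g f n x u)) atBot (𝓝 c)

/-- `T_x M = ⨁ V_i` with `lim_{n → ±∞} (1/n) log ‖T_x f^n u‖ = χ_i` for the nonzero `u` in `V_i`; the
`V_i` are nonzero and the numbers `χ_i`, the characteristic exponents at `x`, are distinct. -/
def IsOseledetsSplitting (g : Bundle.RiemannianMetric (fun x : M => TangentSpace I x))
    (f : Equiv.Perm M) (x : M) {k : ℕ} (V : Fin k → Submodule ℝ (TangentSpace I x))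
    (χ : Fin k → ℝ) : Prop :=
  DirectSum.IsInternal V ∧ (∀ i, V i ≠ ⊥) ∧ Function.Injective χ ∧
    ∀ i, ∀ u ∈ V i, u ≠ 0 → HasExponent I g f x u (χ i)

/-- `s = ∑_{χ_i > 0} χ_i dim V_i` is the sum of the positive characteristic exponents at `x`, counted
with multiplicity (for some splitting as above; it does not depend on it). -/
def IsChiPlus (g : Bundle.RiemannianMetric (fun x : M => TangentSpace I x)) (f : Equiv.Perm M)
    (x : M) (s : ℝ) : Prop :=
  ∃ (k : ℕ) (V : Fin k → Submodule ℝ (TangentSpace I x)) (χ : Fin k → ℝ),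
    IsOseledetsSplitting I g f x V χ ∧
      s = ∑ i, if 0 < χ i then χ i * (Module.finrank ℝ (V i) : ℝ) else 0

end Exponents

section Entropy

variable {M : Type*} [MeasurableSpace M]

/-- The Shannon entropy `H(⋁_{i<n} f^{-i} P)` of the refinement of the partition `P` of `M` into `k`
measurable pieces (given by `P : M → Fin k`). -/
noncomputable def partEntropy (ρ : Measure M) (f : M → M) {k : ℕ} (P : M → Fin k) (n : ℕ) : ℝ :=
  ∑ w : Fin n → Fin k, Real.negMulLog (ρ.real {x | ∀ i : Fin n, P (f^[(i : ℕ)] x) = w i})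

/-- The Kolmogorov-Sinai entropy `h(ρ)` of `f`: the supremum over the finite measurable partitions of
the limit of `(1/n) H(⋁_{i<n} f^{-i} P)`. -/
noncomputable def ksEntropy (ρ : Measure M) (f : M → M) : ℝ≥0∞ :=
  ⨆ (k : ℕ) (P : M → Fin k) (_ : Measurable P),
    limsup (fun n : ℕ => ENNReal.ofReal (partEntropy ρ f P n / n)) atTop

end Entropy

section Inequality

variable {E H M : Type*} [NormedAddCommGroup E] [NormedSpace ℝ E] [TopologicalSpace H]
  (I : ModelWithCorners ℝ E H) [TopologicalSpace M] [ChartedSpace H M] [MeasurableSpace M]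

/-- For every `f`-invariant probability measure `ρ` and every Riemannian metric `g`, the sum of the
positive characteristic exponents `χ` exists `ρ`-almost everywhere, is integrable, and satisfies
`h(ρ) < ∫ χ dρ`, and even `h(ρ) + c ≤ ∫ χ dρ`. -/
def StrictForAllInvariant (f : Equiv.Perm M) (c : ℝ) : Prop :=
  ∀ ρ : Measure M, IsProbabilityMeasure ρ → MeasurePreserving f ρ ρ →
    ∀ g : Bundle.RiemannianMetric (fun x : M => TangentSpace I x),
      (∃ χ : M → ℝ, ∀ᵐ x ∂ρ, IsChiPlus I g f x (χ x)) ∧
      ∀ χ : M → ℝ, (∀ᵐ x ∂ρ, IsChiPlus I g f x (χ x)) →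
        Integrable χ ρ ∧ ksEntropy ρ f < ENNReal.ofReal (∫ x, χ x ∂ρ) ∧
          ksEntropy ρ f + ENNReal.ofReal c ≤ ENNReal.ofReal (∫ x, χ x ∂ρ)

end Inequality

end Pool.Agent.P8H77.EE
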