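import Pool.Agent.P8H77.EE.Supp

/-! Characteristic exponents at the fixed points. -/

set_option autoImplicit false
open Metric Module Filter Topology Set MeasureTheory
open scoped Manifold ContDiff ENNReal

namespace Pool.Agent.P8H77.EE

/-- the model space -/
abbrev E2 := EuclideanSpace ℝ (Fin 2)

section general

lemma equiv_norm (Q : E2 → ℝ) (hc : Continuous Q) (hs : ∀ (t : ℝ) v, Q (t • v) = t ^ 2 * Q v)
    (hp : ∀ v, v ≠ 0 → 0 < Q v) :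
    ∃ a b : ℝ, 0 < a ∧ 0 < b ∧ ∀ v, a * ‖v‖ ^ 2 ≤ Q v ∧ Q v ≤ b * ‖v‖ ^ 2 := by
  have hK : IsCompact (sphere (0 : E2) 1) := isCompact_sphere 0 1
  have hne : (sphere (0 : E2) 1).Nonempty := by
    have : Nontrivial E2 := inferInstance
    exact NormedSpace.sphere_nonempty.2 zero_le_one
  obtain ⟨x, hx, hxm⟩ := hK.exists_isMinOn hne hc.continuousOn
  obtain ⟨y, hy, hyM⟩ := hK.exists_isMaxOn hne hc.continuousOn
  have hx0 : x ≠ 0 := by
    rintro rfl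
    simp at hx
  have hy0 : y ≠ 0 := by
    rintro rfl
    simp at hy
  refine ⟨Q x, Q y, hp x hx0, hp y hy0, fun v => ?_⟩
  by_cases hv : v = 0
  · have : Q v = 0 := by
      have := hs 0 v
      rw [zero_smul] at this
      rw [hv, this]; ring
    rw [this, hv]; simp
  · have h1 : ‖v‖ ≠ 0 := norm_ne_zero_iff.2 hv
    have h2 : v = ‖v‖ • (‖v‖⁻¹ • v) := by
      rw [smul_smul, mul_inv_cancel₀ h1, one_smul]
    have h3 : ‖v‖⁻¹ • v ∈ sphere (0 : E2) 1 := by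
      rw [mem_sphere_zero_iff_norm, norm_smul, norm_inv, norm_norm, inv_mul_cancel₀ h1]
    have h4 : Q v = ‖v‖ ^ 2 * Q (‖v‖⁻¹ • v) := by
      conv_lhs => rw [h2]
      rw [hs]
    rw [h4]
    have h5 : Q x ≤ Q (‖v‖⁻¹ • v) := hxm h3
    have h6 : Q (‖v‖⁻¹ • v) ≤ Q y := hyM h3
    constructor
    · rw [mul_comm]; exact mul_le_mul_of_nonneg_left h5 (sq_nonneg _)
    · rw [mul_comm (Q y)]; exact mul_le_mul_of_nonneg_left h6 (sq_nonneg _)

lemma exp_lim {x : ℤ → ℝ} {c K1 K2 : ℝ} (hc : 0 < c) (h1 : 0 < K1)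
    (h : ∀ n, c ^ n * K1 ≤ x n ∧ x n ≤ c ^ n * K2) :
    Tendsto (fun n : ℤ => 1 / (n : ℝ) * Real.log (x n)) atTop (𝓝 (Real.log c)) ∧
    Tendsto (fun n : ℤ => 1 / (n : ℝ) * Real.log (x n)) atBot (𝓝 (Real.log c)) := by
  have hK2 : 0 < K2 := by
    have := h 0
    rw [zpow_zero, one_mul, one_mul] at this
    linarith
  have hb : ∀ n : ℤ, |Real.log (x n) - n * Real.log c| ≤ |Real.log K1| + |Real.log K2| := by
    intro n
    have hcn : 0 < c ^ n := zpow_pos hc n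
    have hx : 0 < x n := lt_of_lt_of_le (mul_pos hcn h1) (h n).1
    have l1 : n * Real.log c + Real.log K1 ≤ Real.log (x n) := by
      rw [← Real.log_zpow, ← Real.log_mul hcn.ne' h1.ne']
      exact Real.log_le_log (mul_pos hcn h1) (h n).1
    have l2 : Real.log (x n) ≤ n * Real.log c + Real.log K2 := by
      rw [← Real.log_zpow, ← Real.log_mul hcn.ne' hK2.ne']
      exact Real.log_le_log hx (h n).2
    rw [abs_le]
    constructor
    · have := neg_abs_le (Real.log K1)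
      have := abs_nonneg (Real.log K2)
      linarith
    · have := le_abs_self (Real.log K2)
      have := abs_nonneg (Real.log K1)
      linarith
  obtain ⟨C, hC⟩ : ∃ C, C = |Real.log K1| + |Real.log K2| := ⟨_, rfl⟩
  have hd : ∀ n : ℤ, n ≠ 0 → |1 / (n : ℝ) * Real.log (x n) - Real.log c| ≤ C * |(n : ℝ)|⁻¹ := by
    intro n hn
    have hn' : (n : ℝ) ≠ 0 := Int.cast_ne_zero.2 hn
    have e : 1 / (n : ℝ) * Real.log (x n) - Real.log c =
        (Real.log (x n) - n * Real.log c) * (n : ℝ)⁻¹ := by field_simp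
    rw [e, abs_mul, abs_inv, hC]
    exact mul_le_mul_of_nonneg_right (hb n) (inv_nonneg.2 (abs_nonneg _))
  have main : ∀ l : Filter ℤ, Tendsto (fun n : ℤ => |(n : ℝ)|) l atTop →
      Tendsto (fun n : ℤ => 1 / (n : ℝ) * Real.log (x n)) l (𝓝 (Real.log c)) := by
    intro l hl
    rw [tendsto_iff_norm_sub_tendsto_zero]
    have h2 : Tendsto (fun n : ℤ => C * |(n : ℝ)|⁻¹) l (𝓝 0) := by
      have := (tendsto_inv_atTop_zero.comp hl).const_mul C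
      simpa using this
    refine squeeze_zero' (Eventually.of_forall fun n => norm_nonneg _) ?_ h2
    filter_upwards [hl.eventually_gt_atTop 0] with n hn
    rw [Real.norm_eq_abs]
    refine hd n ?_
    rintro rfl
    simp at hn
  refine ⟨main _ ?_, main _ ?_⟩
  · exact tendsto_abs_atTop_atTop.comp tendsto_intCast_atTop_atTop
  · exact tendsto_abs_atBot_atTop.comp (tendsto_intCast_atBot_iff.2 tendsto_id)

end general

section fixed

variable {p : S2}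

lemma cg {g : S2 → S2} {x y : S2} (h : x = y) (B : E2 →L[ℝ] E2)
    (hB : HasMFDerivAt (𝓡 2) (𝓡 2) g x B) : HasMFDerivAt (𝓡 2) (𝓡 2) g y B := by
  subst h; exact hB

/-- the derivative of the inclusion -/
noncomputable def JJ (p : S2) : E2 →L[ℝ] E3 :=
  mfderiv (𝓡 2) 𝓘(ℝ, E3) ((↑) : S2 → E3) p

lemma JJ_has (p : S2) : HasMFDerivAt (𝓡 2) 𝓘(ℝ, E3) ((↑) : S2 → E3) p (JJ p) :=
  ((contMDiff_coe_sphere (m := 1) (n := 2) p).mdifferentiableAt one_ne_zero).hasMFDerivAt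

lemma JJ_inj (p : S2) : Function.Injective (JJ p) :=
  mfderiv_coe_sphere_injective (n := 2) p

lemma JJ_range (p : S2) : ((JJ p : E2 →L[ℝ] E3) : E2 →ₗ[ℝ] E3).range = (ℝ ∙ (p : E3))ᗮ :=
  range_mfderiv_coe_sphere (n := 2) p

lemma JJ_orth (p : S2) (v : E2) : (p : E3) 0 * JJ p v 0 + (p : E3) 1 * JJ p v 1 +
    (p : E3) 2 * JJ p v 2 = 0 := by
  have h1 : JJ p v ∈ (ℝ ∙ (p : E3))ᗮ := by
    rw [← JJ_range]
    exact ⟨v, rfl⟩
  rw [Submodule.mem_orthogonal_singleton_iff_inner_right] at h1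
  simp only [PiLp.inner_apply, Fin.sum_univ_three] at h1
  simp at h1
  linarith

lemma JJ_surj (p : S2) (w : E3) (hw : (p : E3) 0 * w 0 + (p : E3) 1 * w 1 +
    (p : E3) 2 * w 2 = 0) : ∃ v, JJ p v = w := by
  have h1 : w ∈ (ℝ ∙ (p : E3))ᗮ := by
    rw [Submodule.mem_orthogonal_singleton_iff_inner_right]
    simp only [PiLp.inner_apply, Fin.sum_univ_three]
    simp
    linarith
  rw [← JJ_range] at h1
  exact h1

/-- the derivative at `p` -/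
noncomputable def AA (p : S2) : E2 →L[ℝ] E2 := mfderiv (𝓡 2) (𝓡 2) f0 p

/-- the derivative of the inverse at `p` -/
noncomputable def BB (p : S2) : E2 →L[ℝ] E2 := mfderiv (𝓡 2) (𝓡 2) e0.symm p

lemma AA_has (p : S2) : HasMFDerivAt (𝓡 2) (𝓡 2) f0 p (AA p) :=
  ((contMDiff_f0 p).mdifferentiableAt (by simp)).hasMFDerivAt

lemma BB_has (p : S2) : HasMFDerivAt (𝓡 2) (𝓡 2) e0.symm p (BB p) :=
  ((rps.contMDiff_invFun p).mdifferentiableAt (by simp)).hasMFDerivAt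

lemma inv_fix (hp : f0 p = p) : e0.symm p = p := by
  rw [Equiv.symm_apply_eq]; exact hp.symm

lemma BA (hp : f0 p = p) (v : E2) : BB p (AA p v) = v := by
  have h1 : HasMFDerivAt (𝓡 2) (𝓡 2) (e0.symm ∘ f0) p ((BB p).comp (AA p)) :=
    (cg hp.symm (BB p) (BB_has p)).comp p (AA_has p)
  have h2 : (e0.symm ∘ f0 : S2 → S2) = id := by
    funext x; exact e0.symm_apply_apply x
  rw [h2] at h1
  have h3 : HasMFDerivAt (𝓡 2) (𝓡 2) (id : S2 → S2) p (ContinuousLinearMap.id ℝ E2) :=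
    hasMFDerivAt_id p
  have h4 := hasMFDerivAt_unique h1 h3
  exact DFunLike.congr_fun h4 v

lemma AB (hp : f0 p = p) (v : E2) : AA p (BB p v) = v := by
  have h1 : HasMFDerivAt (𝓡 2) (𝓡 2) (f0 ∘ e0.symm) p ((AA p).comp (BB p)) :=
    (cg (inv_fix hp).symm (AA p) (AA_has p)).comp p (BB_has p)
  have h2 : (f0 ∘ e0.symm : S2 → S2) = id := by
    funext x; exact e0.apply_symm_apply x
  rw [h2] at h1
  have h3 : HasMFDerivAt (𝓡 2) (𝓡 2) (id : S2 → S2) p (ContinuousLinearMap.id ℝ E2) :=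
    hasMFDerivAt_id p
  have h4 := hasMFDerivAt_unique h1 h3
  exact DFunLike.congr_fun h4 v

/-- the derivative at a fixed point as an automorphism of the tangent space -/
noncomputable def Ae (hp : f0 p = p) : E2 ≃L[ℝ] E2 :=
  ContinuousLinearEquiv.equivOfInverse (AA p) (BB p) (BA hp) (AB hp)

/-- the derivative of the iterates at a fixed point -/
lemma has_pow (hp : f0 p = p) (n : ℤ) :
    (e0 ^ n : Equiv.Perm S2) p = p ∧
    HasMFDerivAt (𝓡 2) (𝓡 2) (⇑(e0 ^ n : Equiv.Perm S2)) p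
      (((Ae hp) ^ n : E2 ≃L[ℝ] E2) : E2 →L[ℝ] E2) := by
  induction n using Int.induction_on with
  | zero =>
    refine ⟨rfl, ?_⟩
    exact hasMFDerivAt_id p
  | succ n ih =>
    have e : (e0 ^ ((n : ℤ) + 1) : Equiv.Perm S2) = (e0 ^ (n : ℤ)) * e0 := zpow_add_one _ _
    have e' : ((Ae hp) ^ ((n : ℤ) + 1) : E2 ≃L[ℝ] E2) = ((Ae hp) ^ (n : ℤ)) * Ae hp :=
      zpow_add_one _ _
    rw [e, e']
    refine ⟨?_, ?_⟩
    · show (e0 ^ (n : ℤ) : Equiv.Perm S2) (f0 p) = p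
      rw [hp]; exact ih.1
    · exact (cg hp.symm _ ih.2).comp p (AA_has p)
  | pred n ih =>
    have e : (e0 ^ (-(n : ℤ) - 1) : Equiv.Perm S2) = (e0 ^ (-(n : ℤ))) * e0⁻¹ := zpow_sub_one _ _
    have e' : ((Ae hp) ^ (-(n : ℤ) - 1) : E2 ≃L[ℝ] E2) = ((Ae hp) ^ (-(n : ℤ))) * (Ae hp)⁻¹ :=
      zpow_sub_one _ _
    rw [e, e']
    refine ⟨?_, ?_⟩
    · show (e0 ^ (-(n : ℤ)) : Equiv.Perm S2) (e0.symm p) = p
      rw [inv_fix hp]; exact ih.1
    · exact (cg (inv_fix hp).symm _ ih.2).comp p (BB_has p)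

lemma JA (hp : f0 p = p) (v : E2) : JJ p (AA p v) = DF p (JJ p v) := by
  have h1 : HasMFDerivAt (𝓡 2) 𝓘(ℝ, E3) (((↑) : S2 → E3) ∘ f0) p ((JJ p).comp (AA p)) := by
    have h2 : HasMFDerivAt (𝓡 2) 𝓘(ℝ, E3) ((↑) : S2 → E3) (f0 p) (JJ p) := by
      rw [hp]; exact JJ_has p
    exact h2.comp p (AA_has p)
  have h3 : HasMFDerivAt (𝓡 2) 𝓘(ℝ, E3) (F ∘ ((↑) : S2 → E3)) p ((DF p).comp (JJ p)) := by
    have h4 : HasMFDerivAt 𝓘(ℝ, E3) 𝓘(ℝ, E3) F ((p : S2) : E3) (DF p) :=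
      (hasFDerivAt_F (mem_U (normS p))).hasMFDerivAt
    exact h4.comp p (JJ_has p)
  have h5 := hasMFDerivAt_unique h1 h3
  exact DFunLike.congr_fun h5 v

/-- growth of the iterates on a subspace where the derivative is conformal -/
lemma growth (hp : f0 p = p) (V : Submodule ℝ E2) {c : ℝ} (hc : 0 < c)
    (h1 : ∀ v ∈ V, AA p v ∈ V ∧ ‖JJ p (AA p v)‖ = c * ‖JJ p v‖) (h2 : ∀ v ∈ V, BB p v ∈ V)
    (n : ℤ) : ∀ v ∈ V, ((Ae hp) ^ n : E2 ≃L[ℝ] E2) v ∈ V ∧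
      ‖JJ p (((Ae hp) ^ n : E2 ≃L[ℝ] E2) v)‖ = c ^ n * ‖JJ p v‖ := by
  have h3 : ∀ v ∈ V, ‖JJ p (BB p v)‖ = c⁻¹ * ‖JJ p v‖ := by
    intro v hv
    have := (h1 _ (h2 v hv)).2
    rw [AB hp] at this
    rw [this]; field_simp
  induction n using Int.induction_on with
  | zero =>
    intro v hv
    refine ⟨hv, ?_⟩
    show ‖JJ p v‖ = c ^ (0 : ℤ) * ‖JJ p v‖
    rw [zpow_zero, one_mul]
  | succ n ih =>
    intro v hv
    have e' : ((Ae hp) ^ ((n : ℤ) + 1) : E2 ≃L[ℝ] E2) = ((Ae hp) ^ (n : ℤ)) * Ae hp :=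
      zpow_add_one _ _
    rw [e']
    have h4 : (((Ae hp) ^ (n : ℤ)) * Ae hp : E2 ≃L[ℝ] E2) v =
      ((Ae hp) ^ (n : ℤ) : E2 ≃L[ℝ] E2) (AA p v) := rfl
    rw [h4]
    obtain ⟨i1, i2⟩ := ih _ (h1 v hv).1
    refine ⟨i1, ?_⟩
    rw [i2, (h1 v hv).2, zpow_add_one₀ hc.ne']
    ring
  | pred n ih =>
    intro v hv
    have e' : ((Ae hp) ^ (-(n : ℤ) - 1) : E2 ≃L[ℝ] E2) = ((Ae hp) ^ (-(n : ℤ))) * (Ae hp)⁻¹ :=
      zpow_sub_one _ _
    rw [e']
    have h4 : (((Ae hp) ^ (-(n : ℤ))) * (Ae hp)⁻¹ : E2 ≃L[ℝ] E2) v =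
      ((Ae hp) ^ (-(n : ℤ)) : E2 ≃L[ℝ] E2) (BB p v) := rfl
    rw [h4]
    obtain ⟨i1, i2⟩ := ih _ (h2 v hv)
    refine ⟨i1, ?_⟩
    rw [i2, h3 v hv, zpow_sub_one₀ hc.ne']
    ring

/-- the square of the Riemannian norm at `p` -/
noncomputable def QQ (g : Bundle.RiemannianMetric (fun x : S2 => TangentSpace (𝓡 2) x)) (p : S2)
    (v : E2) : ℝ := g.inner p v v

lemma QQ_cont (g : Bundle.RiemannianMetric (fun x : S2 => TangentSpace (𝓡 2) x)) :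
    Continuous (QQ g p) := by
  have h1 : Continuous fun v : E2 => (g.inner p : E2 →L[ℝ] E2 →L[ℝ] ℝ) v :=
    (g.inner p : E2 →L[ℝ] E2 →L[ℝ] ℝ).continuous
  exact h1.clm_apply continuous_id

lemma QQ_smul (g : Bundle.RiemannianMetric (fun x : S2 => TangentSpace (𝓡 2) x)) (t : ℝ)
    (v : E2) : QQ g p (t • v) = t ^ 2 * QQ g p v := by
  obtain ⟨B, hB⟩ : ∃ B : E2 →L[ℝ] E2 →L[ℝ] ℝ, ∀ w : E2, QQ g p w = B w w :=
    ⟨g.inner p, fun w => rfl⟩
  rw [hB, hB]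
  simp only [map_smul, ContinuousLinearMap.smul_apply, smul_eq_mul]
  ring

lemma iter_eq (g : Bundle.RiemannianMetric (fun x : S2 => TangentSpace (𝓡 2) x)) (hp : f0 p = p)
    (n : ℤ) (v : E2) : iterNorm (𝓡 2) g e0 n p v =
      Real.sqrt (QQ g p (((Ae hp) ^ n : E2 ≃L[ℝ] E2) v)) := by
  obtain ⟨h1, h2⟩ := has_pow hp n
  have h3 : ∀ (q : S2) (w : E2), q = p → g.inner q w w = QQ g p w := by
    intro q w hq; subst hq; rfl
  have h4 : mfderiv (𝓡 2) (𝓡 2) (⇑(e0 ^ n : Equiv.Perm S2)) p v =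
    (((Ae hp) ^ n : E2 ≃L[ℝ] E2) v : E2) := by
    have := h2.mfderiv
    exact DFunLike.congr_fun this v
  unfold iterNorm
  rw [h4]
  exact congrArg Real.sqrt (h3 _ _ h1)

/-- the exponents on a subspace where the derivative is conformal -/
lemma exponents (g : Bundle.RiemannianMetric (fun x : S2 => TangentSpace (𝓡 2) x))
    (hp : f0 p = p) (V : Submodule ℝ E2) {c : ℝ} (hc : 0 < c)
    (h1 : ∀ v ∈ V, AA p v ∈ V ∧ ‖JJ p (AA p v)‖ = c * ‖JJ p v‖) (h2 : ∀ v ∈ V, BB p v ∈ V)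
    {v : E2} (hv : v ∈ V) (hv0 : v ≠ 0) : HasExponent (𝓡 2) g e0 p v (Real.log c) := by
  obtain ⟨a, b, ha, hb, hab⟩ := equiv_norm (QQ g p) (QQ_cont g) (QQ_smul g) fun w hw => g.pos p w hw
  obtain ⟨a', b', ha', hb', hab'⟩ := equiv_norm (fun w => ‖JJ p w‖ ^ 2)
    ((JJ p).continuous.norm.pow 2)
    (fun t w => by
      simp only [map_smul, norm_smul, mul_pow, Real.norm_eq_abs, sq_abs])
    (fun w hw => by
      have : JJ p w ≠ 0 := fun h => hw (JJ_inj p (by rw [h, map_zero]))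
      positivity)
  have hJ : 0 < ‖JJ p v‖ := norm_pos_iff.2 fun h => hv0 (JJ_inj p (by rw [h, map_zero]))
  refine exp_lim (K1 := Real.sqrt (a / b') * ‖JJ p v‖) (K2 := Real.sqrt (b / a') * ‖JJ p v‖) hc
    (by positivity) (fun n => ?_)
  rw [iter_eq g hp]
  obtain ⟨w, hw⟩ : ∃ w, w = ((Ae hp) ^ n : E2 ≃L[ℝ] E2) v := ⟨_, rfl⟩
  have hg : ‖JJ p w‖ = c ^ n * ‖JJ p v‖ := by
    rw [hw]; exact (growth hp V hc h1 h2 n v hv).2
  rw [← hw]
  have q1 := (hab w).1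
  have q2 := (hab w).2
  have r1 : a' * ‖w‖ ^ 2 ≤ ‖JJ p w‖ ^ 2 := (hab' w).1
  have r2 : ‖JJ p w‖ ^ 2 ≤ b' * ‖w‖ ^ 2 := (hab' w).2
  constructor
  · have e : c ^ n * (Real.sqrt (a / b') * ‖JJ p v‖) = Real.sqrt (a / b') * ‖JJ p w‖ := by
      rw [hg]; ring
    rw [e]
    apply Real.le_sqrt_of_sq_le
    rw [mul_pow, Real.sq_sqrt (by positivity)]
    have : ‖JJ p w‖ ^ 2 / b' ≤ ‖w‖ ^ 2 := by rw [div_le_iff₀ hb']; linarith
    calc a / b' * ‖JJ p w‖ ^ 2 = a * (‖JJ p w‖ ^ 2 / b') := by ring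
      _ ≤ a * ‖w‖ ^ 2 := by gcongr
      _ ≤ _ := q1
  · have e : c ^ n * (Real.sqrt (b / a') * ‖JJ p v‖) = Real.sqrt (b / a') * ‖JJ p w‖ := by
      rw [hg]; ring
    rw [e]
    apply Real.sqrt_le_iff.2
    refine ⟨by positivity, ?_⟩
    rw [mul_pow, Real.sq_sqrt (by positivity)]
    have : ‖w‖ ^ 2 ≤ ‖JJ p w‖ ^ 2 / a' := by rw [le_div_iff₀ ha']; linarith
    calc QQ g p w ≤ b * ‖w‖ ^ 2 := q2
      _ ≤ b * (‖JJ p w‖ ^ 2 / a') := by gcongr
      _ = _ := by ring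

end fixed

end Pool.Agent.P8H77.EE
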