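import Pool.Agent.P8H77.EE.Exp

/-! The splittings at the fixed points, and the lower bound. -/

set_option autoImplicit false
open Metric Module Filter Topology Set MeasureTheory
open scoped Manifold ContDiff ENNReal

namespace Pool.Agent.P8H77.EE

variable {p : S2}

lemma nrm_fin3 (j : Fin 3) (w : E3) : ‖w‖ ^ 2 = w j ^ 2 + w (j + 1) ^ 2 + w (j + 2) ^ 2 := by
  rw [nsq]
  fin_cases j
  · rfl
  · show _ = w 1 ^ 2 + w 2 ^ 2 + w 0 ^ 2
    ring
  · show _ = w 2 ^ 2 + w 0 ^ 2 + w 1 ^ 2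
    ring

lemma orth3 (j : Fin 3) (w : E3) : (p : E3) 0 * w 0 + (p : E3) 1 * w 1 + (p : E3) 2 * w 2 =
    (p : E3) j * w j + (p : E3) (j + 1) * w (j + 1) + (p : E3) (j + 2) * w (j + 2) := by
  fin_cases j
  · rfl
  · show _ = (p : E3) 1 * w 1 + (p : E3) 2 * w 2 + (p : E3) 0 * w 0
    ring
  · show _ = (p : E3) 2 * w 2 + (p : E3) 0 * w 0 + (p : E3) 1 * w 1
    ring

/-- the vectors whose coordinate `i` vanishes -/
noncomputable def VV (p : S2) (i : Fin 3) : Submodule ℝ E2 :=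
  LinearMap.ker ((EuclideanSpace.proj i : E3 →L[ℝ] ℝ).comp (JJ p)).toLinearMap

lemma mem_VV (i : Fin 3) (v : E2) : v ∈ VV p i ↔ JJ p v i = 0 := by
  unfold VV
  rw [LinearMap.mem_ker]
  rfl

section saddle

variable {j : Fin 3} (h1 : (p : E3) (j + 1) = 0) (h2 : (p : E3) (j + 2) = 0)

include h1 h2

lemma sad_ne : (p : E3) j ≠ 0 := by
  intro h0
  have := nrm_fin3 j (p : E3)
  rw [normS, h0, h1, h2] at this
  norm_num at this

lemma sad_sq : (p : E3) j ^ 2 = 1 := by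
  have := nrm_fin3 j (p : E3)
  rw [normS, h1, h2] at this
  linarith

lemma sad_orth (v : E2) : JJ p v j = 0 := by
  have := JJ_orth p v
  rw [orth3 j, h1, h2, zero_mul, zero_mul, add_zero, add_zero] at this
  rcases mul_eq_zero.1 this with h | h
  · exact absurd h (sad_ne h1 h2)
  · exact h

lemma sad_surj (a b : ℝ) : ∃ v, JJ p v j = 0 ∧ JJ p v (j + 1) = a ∧ JJ p v (j + 2) = b := by
  have e1 : j ≠ j + 1 := by fin_cases j <;> decide
  have e2 : j ≠ j + 2 := by fin_cases j <;> decide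
  have e3 : j + 1 ≠ j + 2 := by fin_cases j <;> decide
  obtain ⟨w, hw⟩ : ∃ w : E3, w = WithLp.toLp 2 fun i => if i = j + 1 then a else if i = j + 2 then b
    else 0 := ⟨_, rfl⟩
  have w0 : w j = 0 := by
    rw [hw]
    show (if j = j + 1 then a else if j = j + 2 then b else 0) = 0
    rw [if_neg e1, if_neg e2]
  have w1 : w (j + 1) = a := by
    rw [hw]
    show (if j + 1 = j + 1 then a else if j + 1 = j + 2 then b else 0) = a
    rw [if_pos rfl]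
  have w2 : w (j + 2) = b := by
    rw [hw]
    show (if j + 2 = j + 1 then a else if j + 2 = j + 2 then b else 0) = b
    rw [if_neg e3.symm, if_pos rfl]
  obtain ⟨v, hv⟩ := JJ_surj p w (by rw [orth3 j, h1, h2, w0]; ring)
  exact ⟨v, by rw [hv, w0], by rw [hv, w1], by rw [hv, w2]⟩

lemma sad_G1 : G p (j + 1) = 1 / 2 := by
  have e1 : j + 1 + 1 = j + 2 := by fin_cases j <;> rfl
  have e2 : j + 1 + 2 = j := by fin_cases j <;> rfl
  unfold G
  rw [e1, e2, h2, sad_sq h1 h2]; norm_num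

lemma sad_G2 : G p (j + 2) = 3 / 2 := by
  have e1 : j + 2 + 1 = j := by fin_cases j <;> rfl
  have e2 : j + 2 + 2 = j + 1 := by fin_cases j <;> rfl
  unfold G
  rw [e1, e2, h1, sad_sq h1 h2]; norm_num

lemma sad_D1 (hp : f0 p = p) (v : E2) :
    JJ p (AA p v) (j + 1) = Real.sqrt (1 / 2) * JJ p v (j + 1) := by
  rw [JA hp, DF_apply, sad_G1 h1 h2, h1]; ring

lemma sad_D2 (hp : f0 p = p) (v : E2) :
    JJ p (AA p v) (j + 2) = Real.sqrt (3 / 2) * JJ p v (j + 2) := by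
  rw [JA hp, DF_apply, sad_G2 h1 h2, h2]; ring

lemma sad_norm (v : E2) : ‖JJ p v‖ ^ 2 = JJ p v (j + 1) ^ 2 + JJ p v (j + 2) ^ 2 := by
  rw [nrm_fin3 j, sad_orth h1 h2]; ring

lemma sad_V1 (hp : f0 p = p) : (∀ v ∈ VV p (j + 2), AA p v ∈ VV p (j + 2) ∧
    ‖JJ p (AA p v)‖ = Real.sqrt (1 / 2) * ‖JJ p v‖) ∧ ∀ v ∈ VV p (j + 2), BB p v ∈ VV p (j + 2) := by
  have hA : ∀ v ∈ VV p (j + 2), AA p v ∈ VV p (j + 2) := by
    intro v hv
    rw [mem_VV] at hv ⊢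
    rw [sad_D2 h1 h2 hp, hv, mul_zero]
  refine ⟨fun v hv => ⟨hA v hv, ?_⟩, fun v hv => ?_⟩
  · have hAv := hA v hv
    rw [mem_VV] at hv hAv
    have : ‖JJ p (AA p v)‖ ^ 2 = (Real.sqrt (1 / 2) * ‖JJ p v‖) ^ 2 := by
      rw [mul_pow, sad_norm h1 h2, sad_norm h1 h2, hv, hAv, sad_D1 h1 h2 hp]; ring
    exact (sq_eq_sq₀ (norm_nonneg _) (by positivity)).1 this
  · rw [mem_VV] at hv ⊢
    have := sad_D2 h1 h2 hp (BB p v)
    rw [AB hp, hv] at this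
    rcases mul_eq_zero.1 this.symm with h | h
    · exact absurd h (by positivity)
    · exact h

lemma sad_V2 (hp : f0 p = p) : (∀ v ∈ VV p (j + 1), AA p v ∈ VV p (j + 1) ∧
    ‖JJ p (AA p v)‖ = Real.sqrt (3 / 2) * ‖JJ p v‖) ∧ ∀ v ∈ VV p (j + 1), BB p v ∈ VV p (j + 1) := by
  have hA : ∀ v ∈ VV p (j + 1), AA p v ∈ VV p (j + 1) := by
    intro v hv
    rw [mem_VV] at hv ⊢
    rw [sad_D1 h1 h2 hp, hv, mul_zero]
  refine ⟨fun v hv => ⟨hA v hv, ?_⟩, fun v hv => ?_⟩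
  · have hAv := hA v hv
    rw [mem_VV] at hv hAv
    have : ‖JJ p (AA p v)‖ ^ 2 = (Real.sqrt (3 / 2) * ‖JJ p v‖) ^ 2 := by
      rw [mul_pow, sad_norm h1 h2, sad_norm h1 h2, hv, hAv, sad_D2 h1 h2 hp]; ring
    exact (sq_eq_sq₀ (norm_nonneg _) (by positivity)).1 this
  · rw [mem_VV] at hv ⊢
    have := sad_D1 h1 h2 hp (BB p v)
    rw [AB hp, hv] at this
    rcases mul_eq_zero.1 this.symm with h | h
    · exact absurd h (by positivity)
    · exact h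

lemma sad_zero {v : E2} (hv : v ∈ VV p (j + 1)) (hv' : v ∈ VV p (j + 2)) : v = 0 := by
  rw [mem_VV] at hv hv'
  have h3 := sad_norm h1 h2 v
  rw [hv, hv'] at h3
  have h4 : ‖JJ p v‖ = 0 := by
    have : ‖JJ p v‖ ^ 2 = 0 := by rw [h3]; ring
    exact pow_eq_zero_iff two_ne_zero |>.1 this
  exact JJ_inj p (by rw [norm_eq_zero.1 h4, map_zero])

lemma sad_compl : IsCompl (VV p (j + 1)) (VV p (j + 2)) := by
  rw [isCompl_iff, disjoint_iff, codisjoint_iff]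
  constructor
  · rw [Submodule.eq_bot_iff]
    intro v hv
    exact sad_zero h1 h2 hv.1 hv.2
  · rw [Submodule.eq_top_iff']
    intro v
    obtain ⟨w, w0, w1, w2⟩ := sad_surj h1 h2 0 (JJ p v (j + 2))
    rw [Submodule.mem_sup]
    refine ⟨w, (mem_VV _ _).2 w1, v - w, (mem_VV _ _).2 ?_, by abel⟩
    rw [map_sub]
    show JJ p v (j + 2) - JJ p w (j + 2) = 0
    rw [w2, sub_self]

lemma sad_ne1 : ∃ v, v ∈ VV p (j + 1) ∧ v ≠ 0 := by
  obtain ⟨w, w0, w1, w2⟩ := sad_surj h1 h2 0 1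
  refine ⟨w, (mem_VV _ _).2 w1, ?_⟩
  rintro rfl
  rw [map_zero] at w2
  exact zero_ne_one w2

lemma sad_ne2 : ∃ v, v ∈ VV p (j + 2) ∧ v ≠ 0 := by
  obtain ⟨w, w0, w1, w2⟩ := sad_surj h1 h2 1 0
  refine ⟨w, (mem_VV _ _).2 w2, ?_⟩
  rintro rfl
  rw [map_zero] at w1
  exact zero_ne_one w1

end saddle

section source

lemma src_sq (h : Src p) (i : Fin 3) : (p : E3) i ^ 2 = 1 / 3 := by
  obtain ⟨h1, h2⟩ := h
  have h3 := nsq (p : E3)
  rw [normS] at h3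
  fin_cases i
  · show (p : E3) 0 ^ 2 = 1 / 3
    linarith
  · show (p : E3) 1 ^ 2 = 1 / 3
    linarith
  · show (p : E3) 2 ^ 2 = 1 / 3
    linarith

lemma src_G (h : Src p) (i : Fin 3) : G p i = 1 := by
  unfold G; rw [src_sq h, src_sq h]; ring

lemma src_conf (h : Src p) (hp : f0 p = p) (v : E2) :
    ‖JJ p (AA p v)‖ = Real.sqrt (13 / 12) * ‖JJ p v‖ := by
  have h1 : ‖JJ p (AA p v)‖ ^ 2 = (Real.sqrt (13 / 12) * ‖JJ p v‖) ^ 2 := by
    rw [mul_pow, Real.sq_sqrt (by norm_num), JA hp]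
    obtain ⟨w, hw⟩ : ∃ w, w = JJ p v := ⟨_, rfl⟩
    have ho := JJ_orth p v
    rw [← hw] at ho ⊢
    have s0 : (p : E3) 0 ^ 2 = 1 / 3 := src_sq h 0
    have s1 : (p : E3) 1 ^ 2 = 1 / 3 := src_sq h 1
    have s2 : (p : E3) 2 ^ 2 = 1 / 3 := src_sq h 2
    have d : ∀ i, DF p w i = w i +
      (p : E3) i * (1 / 2) * ((p : E3) (i + 1) * w (i + 1) - (p : E3) (i + 2) * w (i + 2)) := by
      intro i
      rw [DF_apply, src_G h, Real.sqrt_one, one_mul, mul_one]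
    have d0 : DF p w 0 = w 0 + (p : E3) 0 * (1 / 2) * ((p : E3) 1 * w 1 - (p : E3) 2 * w 2) := d 0
    have d1 : DF p w 1 = w 1 + (p : E3) 1 * (1 / 2) * ((p : E3) 2 * w 2 - (p : E3) 0 * w 0) := d 1
    have d2 : DF p w 2 = w 2 + (p : E3) 2 * (1 / 2) * ((p : E3) 0 * w 0 - (p : E3) 1 * w 1) := d 2
    rw [nsq, nsq, d0, d1, d2]
    have key : ∀ a b c x y z : ℝ, a ^ 2 = 1 / 3 → b ^ 2 = 1 / 3 → c ^ 2 = 1 / 3 →
        a * x + b * y + c * z = 0 →
        (x + a * (1 / 2) * (b * y - c * z)) ^ 2 + (y + b * (1 / 2) * (c * z - a * x)) ^ 2 +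
        (z + c * (1 / 2) * (a * x - b * y)) ^ 2 = 13 / 12 * (x ^ 2 + y ^ 2 + z ^ 2) := by
      intro a b c x y z s0 s1 s2 ho
      have q : (a * x + b * y + c * z) ^ 2 = 0 := by rw [ho]; ring
      linear_combination ((b * y - c * z) ^ 2 / 4) * s0 + ((c * z - a * x) ^ 2 / 4) * s1 +
        ((a * x - b * y) ^ 2 / 4) * s2 + (1 / 4) * (x ^ 2 * s0 + y ^ 2 * s1 + z ^ 2 * s2) -
        (1 / 12) * q
    exact key _ _ _ _ _ _ s0 s1 s2 ho
  exact (sq_eq_sq₀ (norm_nonneg _) (by positivity)).1 h1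

end source

end Pool.Agent.P8H77.EE
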