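import Pool.Agent.P8H77.EE.Fin

/-! The splittings at the fixed points, and the final estimate. -/

set_option autoImplicit false
open Metric Module Filter Topology Set MeasureTheory
open scoped Manifold ContDiff ENNReal

namespace Pool.Agent.P8H77.EE

variable {p : S2}

/-- the lower bound of the sum of the positive exponents -/
noncomputable def c0 : ℝ := Real.log (Real.sqrt (13 / 12))

lemma c0_pos : 0 < c0 := Real.log_pos (Real.lt_sqrt_of_sq_lt (by norm_num))

lemma c0_le : c0 ≤ Real.log (Real.sqrt (3 / 2)) :=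
  Real.log_le_log (by positivity) (Real.sqrt_le_sqrt (by norm_num))

/-- existence of the splitting at a saddle -/
lemma split_sad (g : Bundle.RiemannianMetric (fun x : S2 => TangentSpace (𝓡 2) x))
    (h : Sad p) : (∃ s, IsChiPlus (𝓡 2) g e0 p s) ∧
      ∃ u : E2, u ≠ 0 ∧ ∃ l, c0 ≤ l ∧ HasExponent (𝓡 2) g e0 p u l := by
  have hp := fix_sad h
  obtain ⟨j, h1, h2⟩ := h
  obtain ⟨a1, b1⟩ := sad_V1 h1 h2 hp
  obtain ⟨a2, b2⟩ := sad_V2 h1 h2 hp
  have e1 : ∀ v : E2, v ∈ VV p (j + 2) → v ≠ 0 → HasExponent (𝓡 2) g e0 p v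
      (Real.log (Real.sqrt (1 / 2))) := fun v hv hv0 =>
    exponents g hp _ (by positivity) a1 b1 hv hv0
  have e2 : ∀ v : E2, v ∈ VV p (j + 1) → v ≠ 0 → HasExponent (𝓡 2) g e0 p v
      (Real.log (Real.sqrt (3 / 2))) := fun v hv hv0 =>
    exponents g hp _ (by positivity) a2 b2 hv hv0
  obtain ⟨v1, hv1, hv10⟩ := sad_ne1 h1 h2
  obtain ⟨v2, hv2, hv20⟩ := sad_ne2 h1 h2
  refine ⟨⟨_, 2, ![VV p (j + 1), VV p (j + 2)],
    ![Real.log (Real.sqrt (3 / 2)), Real.log (Real.sqrt (1 / 2))], ⟨?_, ?_, ?_, ?_⟩, rfl⟩,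
    v1, hv10, _, c0_le, e2 v1 hv1 hv10⟩
  · have hu : (Set.univ : Set (Fin 2)) = {0, 1} := by
      ext i; fin_cases i <;> simp
    exact (DirectSum.isInternal_submodule_iff_isCompl (R := ℝ) (M := E2)
      ![VV p (j + 1), VV p (j + 2)] (i := 0) (j := 1) (by decide) hu).2 (sad_compl h1 h2)
  · intro i
    fin_cases i
    · intro hb
      exact hv10 ((Submodule.eq_bot_iff _).1 (show VV p (j + 1) = ⊥ from hb) v1 hv1)
    · intro hb
      exact hv20 ((Submodule.eq_bot_iff _).1 (show VV p (j + 2) = ⊥ from hb) v2 hv2)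
  · have hne : Real.log (Real.sqrt (3 / 2)) ≠ Real.log (Real.sqrt (1 / 2)) := by
      intro he
      have := Real.log_injOn_pos (show (0 : ℝ) < _ by positivity) (show (0 : ℝ) < _ by positivity) he
      rw [Real.sqrt_inj (by norm_num) (by norm_num)] at this
      norm_num at this
    intro a b hab
    fin_cases a <;> fin_cases b
    · rfl
    · exact absurd hab hne
    · exact absurd hab.symm hne
    · rfl
  · intro i u hu hu0
    fin_cases i
    · exact e2 u hu hu0
    · exact e1 u hu hu0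

/-- existence of the splitting at a source -/
lemma split_src (g : Bundle.RiemannianMetric (fun x : S2 => TangentSpace (𝓡 2) x))
    (h : Src p) : (∃ s, IsChiPlus (𝓡 2) g e0 p s) ∧
      ∃ u : E2, u ≠ 0 ∧ ∃ l, c0 ≤ l ∧ HasExponent (𝓡 2) g e0 p u l := by
  have hp := fix_src h
  have e1 : ∀ v : E2, v ≠ 0 → HasExponent (𝓡 2) g e0 p v
      (Real.log (Real.sqrt (13 / 12))) := fun v hv0 =>
    exponents g hp ⊤ (by positivity) (fun v _ => ⟨trivial, src_conf h hp v⟩)
      (fun v _ => trivial) trivial hv0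
  obtain ⟨v1, hv1⟩ : ∃ v : E2, v ≠ 0 := exists_ne 0
  refine ⟨⟨_, 1, fun _ => (⊤ : Submodule ℝ E2), fun _ => Real.log (Real.sqrt (13 / 12)),
    ⟨?_, ?_, ?_, ?_⟩, rfl⟩, v1, hv1, _, le_rfl, e1 v1 hv1⟩
  · exact DirectSum.isInternal_submodule_of_iSupIndep_of_iSup_eq_top (R := ℝ) (M := E2)
      (A := fun _ : Fin 1 => (⊤ : Submodule ℝ E2)) (by
        intro i
        have : ⨆ (j : Fin 1) (_ : j ≠ i), (⊤ : Submodule ℝ E2) = ⊥ := by
          rw [eq_bot_iff]
          exact iSup_le fun j => iSup_le fun hj => absurd (Subsingleton.elim j i) hj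
        rw [this]; exact disjoint_bot_right) (by simp)
  · intro i hb
    exact hv1 ((Submodule.eq_bot_iff _).1 (show (⊤ : Submodule ℝ E2) = ⊥ from hb) v1 trivial)
  · intro a b _; exact Subsingleton.elim a b
  · intro i u _ hu0
    exact e1 u hu0

/-- decomposition of a vector -/
lemma decomp {k : ℕ} {V : Fin k → Submodule ℝ E2} (h : DirectSum.IsInternal V) (u : E2) :
    ∃ z : Fin k → E2, (∀ i, z i ∈ V i) ∧ ∑ i, z i = u := by
  have h1 : u ∈ iSup V := by rw [h.submodule_iSup_eq_top]; trivial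
  have h2 : u ∈ ⨆ i ∈ (Finset.univ : Finset (Fin k)), V i := by simpa using h1
  obtain ⟨z, hz⟩ := (Submodule.mem_iSup_finset_iff_exists_sum V u).1 h2
  exact ⟨fun i => z i, fun i => (z i).2, hz⟩

/-- some exponent of a splitting is at least the forward exponent of a given vector -/
lemma some_exp (g : Bundle.RiemannianMetric (fun x : S2 => TangentSpace (𝓡 2) x))
    (hp : f0 p = p) {u : E2} (hu : u ≠ 0) {l : ℝ} (hl : HasExponent (𝓡 2) g e0 p u l) {k : ℕ}
    {V : Fin k → Submodule ℝ E2} {χ : Fin k → ℝ} (h : DirectSum.IsInternal V)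
    (hχ : ∀ i, ∀ u ∈ V i, u ≠ 0 → HasExponent (𝓡 2) g e0 p u (χ i)) : ∃ i, l ≤ χ i := by
  by_contra hcon
  push Not at hcon
  obtain ⟨m, hm1, hm2⟩ : ∃ m, (∀ i, χ i < m) ∧ m < l := by
    rcases Nat.eq_zero_or_pos k with rfl | hk
    · exact ⟨l - 1, fun i => i.elim0, by linarith⟩
    · have : Nonempty (Fin k) := ⟨⟨0, hk⟩⟩
      obtain ⟨i0, hi0⟩ := Finite.exists_max χ
      refine ⟨(χ i0 + l) / 2, fun i => ?_, ?_⟩
      · have := hi0 i
        have := hcon i0
        linarith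
      · have := hcon i0
        linarith
  obtain ⟨a, b, ha, hb, hab⟩ := equiv_norm (QQ g p) (QQ_cont g) (QQ_smul g) fun w hw => g.pos p w hw
  obtain ⟨z, hz1, hz2⟩ := decomp h u
  obtain ⟨N, hN⟩ : ∃ N : ℤ → E2 → ℝ, ∀ n v, N n v = iterNorm (𝓡 2) g e0 n p v := ⟨_, fun _ _ => rfl⟩
  have N0 : ∀ n v, 0 ≤ N n v := fun n v => by rw [hN]; exact Real.sqrt_nonneg _
  have NQ : ∀ n v, N n v ^ 2 = QQ g p (((Ae hp) ^ n : E2 ≃L[ℝ] E2) v) := by
    intro n v
    rw [hN, iter_eq g hp, Real.sq_sqrt]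
    have := (hab (((Ae hp) ^ n : E2 ≃L[ℝ] E2) v)).1
    exact le_trans (by positivity) this
  have lo : ∀ n v, Real.sqrt a * ‖((Ae hp) ^ n : E2 ≃L[ℝ] E2) v‖ ≤ N n v := by
    intro n v
    apply le_of_sq_le_sq _ (N0 n v)
    rw [mul_pow, Real.sq_sqrt ha.le, NQ]
    exact (hab _).1
  have up : ∀ n v, N n v ≤ Real.sqrt b * ‖((Ae hp) ^ n : E2 ≃L[ℝ] E2) v‖ := by
    intro n v
    apply le_of_sq_le_sq _ (by positivity)
    rw [mul_pow, Real.sq_sqrt hb.le, NQ]
    exact (hab _).2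
  -- each component grows slowly
  have hcomp : ∀ i, ∀ᶠ n : ℤ in atTop, N n (z i) ≤ Real.exp (n * m) := by
    intro i
    by_cases hzi : z i = 0
    · refine Eventually.of_forall fun n => ?_
      have : N n (z i) ≤ 0 := by
        refine (up n (z i)).trans ?_
        rw [hzi, map_zero, norm_zero, mul_zero]
      exact this.trans (Real.exp_pos _).le
    · have h1 := (hχ i (z i) (hz1 i) hzi).1
      have h2 := h1.eventually (gt_mem_nhds (hm1 i))
      filter_upwards [h2, eventually_gt_atTop 0] with n hn hn0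
      have hn0' : (0 : ℝ) < n := Int.cast_pos.2 hn0
      rw [← hN] at hn
      rcases (N0 n (z i)).eq_or_lt with h3 | h3
      · rw [← h3]; exact (Real.exp_pos _).le
      · rw [← Real.log_le_iff_le_exp h3]
        have : Real.log (N n (z i)) < m * n := by
          rwa [one_div, inv_mul_lt_iff₀ hn0', mul_comm] at hn
        linarith
  have hall : ∀ᶠ n : ℤ in atTop, ∀ i, N n (z i) ≤ Real.exp (n * m) := eventually_all.2 hcomp
  obtain ⟨C, hC⟩ : ∃ C, C = Real.sqrt b * ((Real.sqrt a)⁻¹ * (k + 1)) := ⟨_, rfl⟩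
  have sa : 0 < Real.sqrt a := Real.sqrt_pos.2 ha
  have sb : 0 < Real.sqrt b := Real.sqrt_pos.2 hb
  have hC0 : 0 < C := by rw [hC]; positivity
  have hub : ∀ᶠ n : ℤ in atTop, N n u ≤ C * Real.exp (n * m) := by
    filter_upwards [hall] with n hn
    refine (up n u).trans ?_
    rw [hC, mul_assoc]
    refine mul_le_mul_of_nonneg_left ?_ sb.le
    calc ‖((Ae hp) ^ n : E2 ≃L[ℝ] E2) u‖ = ‖∑ i, ((Ae hp) ^ n : E2 ≃L[ℝ] E2) (z i)‖ := by
          rw [← hz2, map_sum]
      _ ≤ ∑ i, ‖((Ae hp) ^ n : E2 ≃L[ℝ] E2) (z i)‖ := norm_sum_le _ _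
      _ ≤ ∑ _i : Fin k, (Real.sqrt a)⁻¹ * Real.exp (n * m) := by
          refine Finset.sum_le_sum fun i _ => ?_
          rw [le_inv_mul_iff₀ sa]
          exact (lo n (z i)).trans (hn i)
      _ = (k : ℝ) * ((Real.sqrt a)⁻¹ * Real.exp (n * m)) := by
          rw [Finset.sum_const, Finset.card_univ, Fintype.card_fin, nsmul_eq_mul]
      _ ≤ _ := by
          have : (0 : ℝ) ≤ (Real.sqrt a)⁻¹ * Real.exp (n * m) := by positivity
          nlinarith
  have hlim : Tendsto (fun n : ℤ => 1 / (n : ℝ) * Real.log C + m) atTop (𝓝 (0 * Real.log C + m)) := by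
    refine Tendsto.add_const m (Tendsto.mul_const _ ?_)
    have := tendsto_inv_atTop_zero.comp (tendsto_intCast_atTop_atTop (R := ℝ))
    refine this.congr fun n => ?_
    rw [one_div]; rfl
  rw [zero_mul, zero_add] at hlim
  have hle : l ≤ m := by
    refine le_of_tendsto_of_tendsto hl.1 hlim ?_
    filter_upwards [hub, eventually_gt_atTop 0] with n hn hn0
    have hn0' : (0 : ℝ) < n := Int.cast_pos.2 hn0
    have hNu : 0 < N n u := by
      refine lt_of_lt_of_le ?_ (lo n u)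
      refine mul_pos sa (norm_pos_iff.2 fun h0 => hu ?_)
      exact ((Ae hp) ^ n : E2 ≃L[ℝ] E2).injective (by rw [h0, map_zero])
    have h3 : Real.log (N n u) ≤ Real.log C + n * m := by
      have := Real.log_le_log hNu hn
      rwa [Real.log_mul hC0.ne' (Real.exp_pos _).ne', Real.log_exp] at this
    have h4 : 1 / (n : ℝ) * Real.log (iterNorm (𝓡 2) g e0 n p u) ≤
        1 / (n : ℝ) * (Real.log C + n * m) := by
      rw [← hN]
      exact mul_le_mul_of_nonneg_left h3 (by positivity)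
    refine h4.trans (le_of_eq ?_)
    field_simp
  linarith

/-- the lower bound -/
lemma lower (g : Bundle.RiemannianMetric (fun x : S2 => TangentSpace (𝓡 2) x))
    (h : Src p ∨ Sad p) {s : ℝ} (hs : IsChiPlus (𝓡 2) g e0 p s) : c0 ≤ s := by
  have hp : f0 p = p := by
    rcases h with h | h
    · exact fix_src h
    · exact fix_sad h
  obtain ⟨u, hu, l, hl, hul⟩ : ∃ u : E2, u ≠ 0 ∧ ∃ l, c0 ≤ l ∧ HasExponent (𝓡 2) g e0 p u l := by
    rcases h with h | h
    · exact (split_src g h).2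
    · exact (split_sad g h).2
  obtain ⟨k, V, χ, ⟨h1, h2, -, h4⟩, rfl⟩ := hs
  obtain ⟨i, hi⟩ := some_exp g hp hu hul (V := V) h1 h4
  have hpos : 0 < χ i := lt_of_lt_of_le c0_pos (hl.trans hi)
  have hf : (1 : ℝ) ≤ (Module.finrank ℝ (V i) : ℝ) := by
    have h6 : ∀ W : Submodule ℝ E2, W ≠ ⊥ → 1 ≤ Module.finrank ℝ W := fun W hW =>
      Submodule.one_le_finrank_iff.2 hW
    exact_mod_cast h6 (V i) (h2 i)
  have h7 : (if 0 < χ i then χ i * (Module.finrank ℝ (V i) : ℝ) else 0) ≤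
      ∑ i, if 0 < χ i then χ i * (Module.finrank ℝ (V i) : ℝ) else 0 := by
    refine Finset.single_le_sum (f := fun i => if 0 < χ i then
      χ i * (Module.finrank ℝ (V i) : ℝ) else 0) (fun j _ => ?_) (Finset.mem_univ i)
    show 0 ≤ (if 0 < χ j then χ j * (Module.finrank ℝ (V j) : ℝ) else 0)
    split_ifs with hj
    · positivity
    · exact le_rfl
  rw [if_pos hpos] at h7
  refine le_trans ?_ h7
  nlinarith

/-- the fixed points form a finite set -/
lemma fin_fix : {s : S2 | Src s ∨ Sad s}.Finite := by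
  have hT : ({x : ℝ | x ^ 2 = 0 ∨ x ^ 2 = 1 ∨ x ^ 2 = 1 / 3} : Set ℝ).Finite := by
    have h1 : ({x : ℝ | x ^ 2 = 0 ∨ x ^ 2 = 1 ∨ x ^ 2 = 1 / 3} : Set ℝ) ⊆
        {0, 1, -1, Real.sqrt (1 / 3), -Real.sqrt (1 / 3)} := by
      rintro x (h | h | h)
      · left; exact pow_eq_zero_iff two_ne_zero |>.1 h
      · rcases sq_eq_sq_iff_eq_or_eq_neg.1 (show x ^ 2 = 1 ^ 2 by rw [h]; ring) with h | h
        · right; left; exact h
        · right; right; left; exact h
      · have h2 : x ^ 2 = Real.sqrt (1 / 3) ^ 2 := by rw [Real.sq_sqrt (by norm_num), h]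
        rcases sq_eq_sq_iff_eq_or_eq_neg.1 h2 with h | h
        · right; right; right; left; exact h
        · right; right; right; right; exact h
    exact (Set.toFinite _).subset h1
  have h2 : (Set.pi univ fun _ : Fin 3 => ({x : ℝ | x ^ 2 = 0 ∨ x ^ 2 = 1 ∨ x ^ 2 = 1 / 3} :
    Set ℝ)).Finite := Set.Finite.pi fun _ => hT
  have h3 : Function.Injective fun s : S2 => fun i : Fin 3 => (s : E3) i := by
    intro s t hst
    apply Subtype.ext
    ext i
    exact congrFun hst i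
  refine (h2.preimage h3.injOn).subset ?_
  rintro s (h | h)
  · intro i _
    right; right
    exact src_sq h i
  · obtain ⟨j, h1, h2⟩ := h
    intro i _
    show (s : E3) i ^ 2 = 0 ∨ (s : E3) i ^ 2 = 1 ∨ (s : E3) i ^ 2 = 1 / 3
    rcases fin3 j i with rfl | rfl | rfl
    · right; left; exact sad_sq h1 h2
    · left; rw [h1]; ring
    · left; rw [h2]; ring

/-- every function is integrable for an invariant measure -/
lemma integ {ρ : Measure S2} [IsProbabilityMeasure ρ] (h : MeasurePreserving f0 ρ ρ)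
    (χ : S2 → ℝ) : Integrable χ ρ := by
  have h1 := supp h
  have h2 : ρ.restrict {s : S2 | Src s ∨ Sad s} = ρ := Measure.restrict_eq_self_of_ae_mem h1
  rw [← h2]
  have h3 : ∀ S : Set S2, S.Finite → IntegrableOn χ S ρ := by
    intro S hS
    induction S, hS using Set.Finite.induction_on with
    | empty => exact integrableOn_empty
    | insert _ _ ih =>
      rw [Set.insert_eq]
      refine IntegrableOn.union ?_ ih
      rw [integrableOn_singleton_iff]
      exact Or.inr (measure_lt_top _ _)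
  exact h3 _ fin_fix

/-- the final estimate -/
lemma final {ρ : Measure S2} [IsProbabilityMeasure ρ] (h : MeasurePreserving f0 ρ ρ)
    (g : Bundle.RiemannianMetric (fun x : S2 => TangentSpace (𝓡 2) x)) :
    (∃ χ : S2 → ℝ, ∀ᵐ x ∂ρ, IsChiPlus (𝓡 2) g e0 x (χ x)) ∧
    ∀ χ : S2 → ℝ, (∀ᵐ x ∂ρ, IsChiPlus (𝓡 2) g e0 x (χ x)) → c0 ≤ ∫ x, χ x ∂ρ := by
  refine ⟨?_, fun χ hχ => ?_⟩
  · have h1 : ∀ s : S2, ∃ t : ℝ, Src s ∨ Sad s → IsChiPlus (𝓡 2) g e0 s t := by
      intro s
      by_cases hs : Src s ∨ Sad s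
      · rcases hs with h2 | h2
        · obtain ⟨t, ht⟩ := (split_src g h2).1
          exact ⟨t, fun _ => ht⟩
        · obtain ⟨t, ht⟩ := (split_sad g h2).1
          exact ⟨t, fun _ => ht⟩
      · exact ⟨0, fun h => absurd h hs⟩
    choose χ hχ using h1
    refine ⟨χ, ?_⟩
    filter_upwards [supp h] with s hs
    exact hχ s hs
  · have h1 : ∀ᵐ x ∂ρ, c0 ≤ χ x := by
      filter_upwards [supp h, hχ] with s hs h2
      exact lower g hs h2
    have h2 : ∫ _x, c0 ∂ρ ≤ ∫ x, χ x ∂ρ := integral_mono_ae (integrable_const _) (integ h χ) h1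
    rwa [integral_const, probReal_univ, one_smul] at h2

end Pool.Agent.P8H77.EE
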