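import Pool.Agent.P8H77.EE.Amb

/-! The map of the sphere is an analytic diffeomorphism. -/

set_option autoImplicit false
open Metric Module Filter Topology Set
open scoped Manifold ContDiff

namespace Pool.Agent.P8H77.EE

instance fact3 : Fact (finrank ℝ E3 = 2 + 1) := ⟨finrank_euclideanSpace_fin⟩

lemma normS (s : S2) : ‖(s : E3)‖ = 1 := by simp

/-- the map of the sphere -/
noncomputable def f0 (s : S2) : S2 :=
  ⟨F s, by rw [mem_sphere_zero_iff_norm, F_norm (mem_U (normS s)), normS]⟩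

lemma f0_coe (s : S2) : (f0 s : E3) = F s := rfl

lemma contMDiff_Fi : ContMDiff (𝓡 2) 𝓘(ℝ, E3) ω (fun s : S2 => F (s : E3)) := by
  intro s
  have h1 : ContMDiffAt 𝓘(ℝ, E3) 𝓘(ℝ, E3) ω F (s : E3) :=
    (contDiffAt_F (mem_U (normS s))).contMDiffAt
  have h2 : ContMDiffAt (𝓡 2) 𝓘(ℝ, E3) ω ((↑) : S2 → E3) s := contMDiff_coe_sphere s
  exact h1.comp s h2

lemma contMDiff_f0 : ContMDiff (𝓡 2) (𝓡 2) ω f0 :=
  contMDiff_Fi.codRestrict_sphere (n := 2) fun s => (f0 s).2

lemma continuous_f0 : Continuous f0 := contMDiff_f0.continuous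

lemma inj_f0 : Function.Injective f0 := by
  intro s t h
  have h1 : F s = F t := congrArg Subtype.val h
  exact Subtype.ext (F_injOn (normS s) (normS t) h1)

/-- the local inverse at a point of the sphere -/
lemma loc (x : S2) : ∃ ψ : E3 → E3, ContDiffAt ℝ ω ψ (F x) ∧ ψ (F x) = x ∧
    (∀ᶠ y in 𝓝 (F x), F (ψ y) = y) ∧ ∀ᶠ z in 𝓝 (x : E3), ψ (F z) = z := by
  have hU := mem_U (normS x)
  have h1 := contDiffAt_F hU
  have h2 : HasFDerivAt F (DFe hU : E3 →L[ℝ] E3) (x : E3) := by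
    rw [DFe_coe]; exact hasFDerivAt_F hU
  have hn : (ω : WithTop ℕ∞) ≠ 0 := by simp
  obtain ⟨e, he⟩ : ∃ e : OpenPartialHomeomorph E3 E3,
    e = h1.toOpenPartialHomeomorph F h2 hn := ⟨_, rfl⟩
  have c : (e : E3 → E3) = F := by rw [he]; rfl
  have s1 : (x : E3) ∈ e.source := by
    rw [he]; exact h1.mem_toOpenPartialHomeomorph_source h2 hn
  have t1 : F x ∈ e.target := by
    rw [he]; exact h1.image_mem_toOpenPartialHomeomorph_target h2 hn
  have c1 : e.symm (F x) = x := by rw [← c]; exact e.left_inv s1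
  refine ⟨e.symm, ?_, c1, ?_, ?_⟩
  · refine e.contDiffAt_symm t1 (f₀' := DFe hU) ?_ ?_
    · rw [c1, c]; exact h2
    · rw [c1, c]; exact h1
  · filter_upwards [e.open_target.mem_nhds t1] with y hy
    rw [← c]; exact e.right_inv hy
  · filter_upwards [e.open_source.mem_nhds s1] with z hz
    rw [← c]; exact e.left_inv hz

lemma open_f0 : IsOpenMap f0 := by
  rw [isOpenMap_iff_nhds_le]
  intro x
  obtain ⟨ψ, h1, h2, h3, -⟩ := loc x
  intro V hV
  rw [mem_map] at hV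
  obtain ⟨W, hW, hWV⟩ := mem_nhds_subtype _ _ _ |>.1 hV
  have c1 : ContinuousAt ψ (F x) := h1.continuousAt
  have hWU : W ∩ U ∈ 𝓝 (ψ (F x)) := by
    rw [h2]
    exact inter_mem hW (isOpen_U.mem_nhds (mem_U (normS x)))
  have h4 : ∀ᶠ y in 𝓝 (F x), ψ y ∈ W ∩ U := c1.eventually_mem hWU
  have h5 : ∀ᶠ y : S2 in 𝓝 (f0 x), ψ (y : E3) ∈ W ∩ U ∧ F (ψ (y : E3)) = y := by
    have : Tendsto ((↑) : S2 → E3) (𝓝 (f0 x)) (𝓝 (F x)) :=
      continuous_subtype_val.continuousAt
    exact this.eventually (h4.and h3)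
  filter_upwards [h5] with y hy
  obtain ⟨⟨hy1, hy2⟩, hy3⟩ := hy
  have n1 : ‖ψ (y : E3)‖ = 1 := by
    rw [← F_norm hy2, hy3, normS]
  have h6 : (⟨ψ (y : E3), by rw [mem_sphere_zero_iff_norm, n1]⟩ : S2) ∈ f0 ⁻¹' V := hWV hy1
  have h7 : f0 ⟨ψ (y : E3), by rw [mem_sphere_zero_iff_norm, n1]⟩ = y := Subtype.ext hy3
  rw [mem_preimage, h7] at h6
  exact h6

lemma surj_f0 : Function.Surjective f0 := by
  have hr : 1 < Module.rank ℝ E3 := by
    rw [← Module.finrank_eq_rank, finrank_euclideanSpace_fin]; norm_num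
  have hc : IsPreconnected (sphere (0 : E3) 1) := isPreconnected_sphere hr 0 1
  have : PreconnectedSpace S2 := isPreconnected_iff_preconnectedSpace.1 hc
  have hne : Nonempty S2 := by
    obtain ⟨x, hx⟩ := (isConnected_sphere hr 0 zero_le_one : IsConnected (sphere (0 : E3) 1)).1
    exact ⟨⟨x, hx⟩⟩
  have h1 : IsClopen (range f0) :=
    ⟨(isCompact_range continuous_f0).isClosed, open_f0.isOpen_range⟩
  have h2 : range f0 = univ := h1.eq_univ (range_nonempty f0)
  exact range_eq_univ.1 h2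

/-- the equivalence -/
noncomputable def e0 : S2 ≃ S2 := Equiv.ofBijective f0 ⟨inj_f0, surj_f0⟩

lemma continuous_inv : Continuous e0.symm :=
  (Continuous.homeoOfEquivCompactToT2 (f := e0) continuous_f0).symm.continuous

lemma contMDiff_inv0 : ContMDiff (𝓡 2) 𝓘(ℝ, E3) ω (fun s : S2 => ((e0.symm s : S2) : E3)) := by
  intro y
  obtain ⟨x, hx⟩ : ∃ x, x = e0.symm y := ⟨_, rfl⟩
  have hy : f0 x = y := by
    rw [hx]; exact e0.apply_symm_apply y
  obtain ⟨ψ, h1, h2, -, h4⟩ := loc x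
  have hy' : F x = (y : E3) := by rw [← hy]; rfl
  rw [hy'] at h1 h2
  have h5 : ContMDiffAt (𝓡 2) 𝓘(ℝ, E3) ω (fun s : S2 => ψ (s : E3)) y := by
    have h6 : ContMDiffAt 𝓘(ℝ, E3) 𝓘(ℝ, E3) ω ψ (y : E3) := h1.contMDiffAt
    have h7 : ContMDiffAt (𝓡 2) 𝓘(ℝ, E3) ω ((↑) : S2 → E3) y := contMDiff_coe_sphere y
    exact h6.comp y h7
  refine h5.congr_of_eventuallyEq ?_
  have h8 : Tendsto (fun s : S2 => ((e0.symm s : S2) : E3)) (𝓝 y) (𝓝 (x : E3)) := by
    rw [hx]
    exact (continuous_subtype_val.comp continuous_inv).continuousAt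
  filter_upwards [h8.eventually h4] with s hs
  have h9 : F (e0.symm s : S2) = (s : E3) := by
    have : f0 (e0.symm s) = s := e0.apply_symm_apply s
    exact congrArg Subtype.val this
  rw [h9] at hs
  exact hs.symm

/-- the rock-paper-scissors diffeomorphism of the sphere -/
noncomputable def rps : Diffeomorph (𝓡 2) (𝓡 2) S2 S2 ω where
  toEquiv := e0
  contMDiff_toFun := contMDiff_f0
  contMDiff_invFun := contMDiff_inv0.codRestrict_sphere (n := 2) fun s => (e0.symm s).2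

lemma rps_coe (s : S2) : ((rps s : S2) : E3) = F s := rfl

end Pool.Agent.P8H77.EE
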