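import Pool.Agent.P8H77.EE.Sph
import Pool.Agent.P8H77.EE.Defs

/-! The invariant measures of the map sit on its fixed points, and have entropy zero. -/

set_option autoImplicit false
open Metric Module Filter Topology Set MeasureTheory
open scoped Manifold ContDiff ENNReal

namespace Pool.Agent.P8H77.EE

/-- the sources -/
def Src (s : S2) : Prop := (s : E3) 0 ^ 2 = (s : E3) 1 ^ 2 ∧ (s : E3) 1 ^ 2 = (s : E3) 2 ^ 2

/-- the saddles -/
def Sad (s : S2) : Prop := ∃ j : Fin 3, (s : E3) (j + 1) = 0 ∧ (s : E3) (j + 2) = 0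

lemma cont_coord (i : Fin 3) : Continuous fun s : S2 => (s : E3) i :=
  (EuclideanSpace.proj i : E3 →L[ℝ] ℝ).continuous.comp continuous_subtype_val

lemma f0_sq (s : S2) (i : Fin 3) : (f0 s : E3) i ^ 2 = (s : E3) i ^ 2 * G s i :=
  F_sq (mem_U (normS s)) i

lemma inv_int {ρ : Measure S2} (h : MeasurePreserving f0 ρ ρ) {K : S2 → ℝ} (hK : Measurable K) :
    ∫ x, K (f0 x) ∂ρ = ∫ x, K x ∂ρ := by
  have h1 := integral_map (μ := ρ) (φ := f0) h.aemeasurable (f := K)
    (by rw [h.map_eq]; exact hK.aestronglyMeasurable)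
  rw [h.map_eq] at h1
  exact h1.symm

lemma ae_zero {ρ : Measure S2} [IsProbabilityMeasure ρ] (h : MeasurePreserving f0 ρ ρ) {K : S2 → ℝ}
    (hK : Measurable K) (C : ℝ) (hC : ∀ x, |K x| ≤ C) (hm : ∀ x, K x ≤ K (f0 x)) :
    ∀ᵐ x ∂ρ, K (f0 x) = K x := by
  have i1 : Integrable K ρ := Integrable.of_bound hK.aestronglyMeasurable C
    (Eventually.of_forall fun x => by rw [Real.norm_eq_abs]; exact hC x)
  have i2 : Integrable (fun x => K (f0 x)) ρ :=
    Integrable.of_bound (hK.comp h.measurable).aestronglyMeasurable C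
    (Eventually.of_forall fun x => by rw [Real.norm_eq_abs]; exact hC _)
  have h1 : ∫ x, (K (f0 x) - K x) ∂ρ = 0 := by
    rw [integral_sub i2 i1, inv_int h hK, sub_self]
  have h2 := (integral_eq_zero_iff_of_nonneg (fun x => sub_nonneg.2 (hm x)) (i2.sub i1)).1 h1
  filter_upwards [h2] with x hx
  have : K (f0 x) - K x = 0 := hx
  linarith

lemma bd (s : S2) (i : Fin 3) : 0 ≤ (s : E3) i ^ 2 ∧ (s : E3) i ^ 2 ≤ 1 := by
  have h1 := nsq (s : E3)
  rw [normS] at h1
  refine ⟨sq_nonneg _, ?_⟩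
  fin_cases i
  · show (s : E3) 0 ^ 2 ≤ 1
    nlinarith [sq_nonneg ((s : E3) 1), sq_nonneg ((s : E3) 2)]
  · show (s : E3) 1 ^ 2 ≤ 1
    nlinarith [sq_nonneg ((s : E3) 0), sq_nonneg ((s : E3) 2)]
  · show (s : E3) 2 ^ 2 ≤ 1
    nlinarith [sq_nonneg ((s : E3) 0), sq_nonneg ((s : E3) 1)]

lemma amgm {a b c : ℝ} (ha : 0 < a) (hb : 0 < b) (hc : 0 < c) (h : a + b + c = 3) :
    a * b * c ≤ 1 ∧ (a * b * c = 1 → a = 1 ∧ b = 1 ∧ c = 1) := by
  obtain rfl : c = 3 - a - b := by linarith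
  have h1 : 1 - a * b * (3 - a - b) = ((a + b) / 2 - 1) ^ 2 * (a + b + 1) +
      (a - b) ^ 2 / 4 * (3 - a - b) := by ring
  have p1 : 0 ≤ ((a + b) / 2 - 1) ^ 2 * (a + b + 1) := by positivity
  have p2 : 0 ≤ (a - b) ^ 2 / 4 * (3 - a - b) := mul_nonneg (by positivity) hc.le
  refine ⟨by linarith, fun h2 => ?_⟩
  have q1 : ((a + b) / 2 - 1) ^ 2 * (a + b + 1) = 0 := by linarith
  have q2 : (a - b) ^ 2 / 4 * (3 - a - b) = 0 := by linarith
  have r1 : (a + b) / 2 - 1 = 0 := by
    rcases mul_eq_zero.1 q1 with h3 | h3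
    · exact pow_eq_zero_iff two_ne_zero |>.1 h3
    · linarith
  have r2 : a - b = 0 := by
    rcases mul_eq_zero.1 q2 with h3 | h3
    · have : (a - b) ^ 2 = 0 := by linarith
      exact pow_eq_zero_iff two_ne_zero |>.1 this
    · linarith
  exact ⟨by linarith, by linarith, by linarith⟩

/-- invariant measures sit on the sources and the saddles -/
lemma supp {ρ : Measure S2} [IsProbabilityMeasure ρ] (h : MeasurePreserving f0 ρ ρ) :
    ∀ᵐ s ∂ρ, Src s ∨ Sad s := by
  -- first step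
  have hU : ∀ s : S2, ∀ i, 0 < G s i := fun s => mem_U (normS s)
  have st1 : ∀ᵐ s : S2 ∂ρ, (s : E3) 0 ^ 2 * (s : E3) 1 ^ 2 * (s : E3) 2 ^ 2 *
      (G s 0 * G s 1 * G s 2) = (s : E3) 0 ^ 2 * (s : E3) 1 ^ 2 * (s : E3) 2 ^ 2 := by
    have hgs : ∀ s : S2, G s 0 + G s 1 + G s 2 = 3 := fun s => by rw [G0, G1, G2]; ring
    have key := ae_zero h (K := fun s : S2 => -((s : E3) 0 ^ 2 * (s : E3) 1 ^ 2 * (s : E3) 2 ^ 2))
      (by
        apply Continuous.measurable
        exact ((((cont_coord 0).pow 2).mul ((cont_coord 1).pow 2)).mul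
          ((cont_coord 2).pow 2)).neg) 1
      (fun s => by
        obtain ⟨a0, b0⟩ := bd s 0
        obtain ⟨a1, b1⟩ := bd s 1
        obtain ⟨a2, b2⟩ := bd s 2
        rw [abs_neg, abs_of_nonneg (by positivity)]
        exact mul_le_one₀ (mul_le_one₀ b0 a1 b1) a2 b2)
      (fun s => by
        show -_ ≤ -((f0 s : E3) 0 ^ 2 * (f0 s : E3) 1 ^ 2 * (f0 s : E3) 2 ^ 2)
        rw [f0_sq, f0_sq, f0_sq, neg_le_neg_iff]
        have h1 := (amgm (hU s 0) (hU s 1) (hU s 2) (hgs s)).1
        have h2 : (s : E3) 0 ^ 2 * G s 0 * ((s : E3) 1 ^ 2 * G s 1) * ((s : E3) 2 ^ 2 * G s 2) =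
          (s : E3) 0 ^ 2 * (s : E3) 1 ^ 2 * (s : E3) 2 ^ 2 * (G s 0 * G s 1 * G s 2) := by ring
        rw [h2]
        exact mul_le_of_le_one_right (by positivity) h1)
    filter_upwards [key] with s hs
    have h1 : -((f0 s : E3) 0 ^ 2 * (f0 s : E3) 1 ^ 2 * (f0 s : E3) 2 ^ 2) =
      -((s : E3) 0 ^ 2 * (s : E3) 1 ^ 2 * (s : E3) 2 ^ 2) := hs
    rw [f0_sq, f0_sq, f0_sq] at h1
    linear_combination -h1
  -- second step
  have st2 : ∀ i : Fin 3, ∀ᵐ s : S2 ∂ρ, (s : E3) i = 0 → (s : E3) (i + 1) = 0 ∨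
      (s : E3) (i + 2) = 0 := by
    intro i
    have hz : ∀ s : S2, (f0 s : E3) i = 0 ↔ (s : E3) i = 0 := by
      intro s
      rw [f0_coe, F_apply]
      constructor
      · intro h1
        rcases mul_eq_zero.1 h1 with h2 | h2
        · exact h2
        · exact absurd h2 (Real.sqrt_pos.2 (hU s i)).ne'
      · intro h1; rw [h1, zero_mul]
    have hs3 : i + 1 + 1 = i + 2 := by rw [add_assoc]; rfl
    have hs4 : i + 1 + 2 = i := by rw [add_assoc]; simp
    have hG : ∀ s : S2, (s : E3) i = 0 → G s (i + 1) = 1 + 1 / 2 * (s : E3) (i + 2) ^ 2 := by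
      intro s h1
      unfold G
      rw [hs3, hs4, h1]
      ring
    have key := ae_zero h (K := {s : S2 | (s : E3) i = 0}.indicator fun s => (s : E3) (i + 1) ^ 2)
      (by
        refine Measurable.indicator ((cont_coord (i + 1)).pow 2).measurable ?_
        exact (isClosed_eq (cont_coord i) continuous_const).measurableSet) 1
      (fun s => by
        unfold indicator
        split_ifs
        · obtain ⟨a1, b1⟩ := bd s (i + 1)
          rw [abs_of_nonneg a1]; exact b1
        · simp)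
      (fun s => by
        unfold indicator
        by_cases h1 : (s : E3) i = 0
        · rw [if_pos (show s ∈ {s : S2 | (s : E3) i = 0} from h1),
            if_pos (show f0 s ∈ {s : S2 | (s : E3) i = 0} from (hz s).2 h1)]
          show (s : E3) (i + 1) ^ 2 ≤ (f0 s : E3) (i + 1) ^ 2
          rw [f0_sq, hG s h1]
          nlinarith [sq_nonneg ((s : E3) (i + 1)), sq_nonneg ((s : E3) (i + 2)),
            mul_nonneg (sq_nonneg ((s : E3) (i + 1))) (sq_nonneg ((s : E3) (i + 2)))]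
        · rw [if_neg (show s ∉ {s : S2 | (s : E3) i = 0} from h1),
            if_neg (show f0 s ∉ {s : S2 | (s : E3) i = 0} from fun h2 => h1 ((hz s).1 h2))])
    filter_upwards [key] with s hs h1
    unfold indicator at hs
    rw [if_pos (show s ∈ {s : S2 | (s : E3) i = 0} from h1),
      if_pos (show f0 s ∈ {s : S2 | (s : E3) i = 0} from (hz s).2 h1)] at hs
    have hs' : (f0 s : E3) (i + 1) ^ 2 = (s : E3) (i + 1) ^ 2 := hs
    rw [f0_sq, hG s h1] at hs'
    have h2 : (s : E3) (i + 1) ^ 2 * (s : E3) (i + 2) ^ 2 = 0 := by linarith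
    rcases mul_eq_zero.1 h2 with h3 | h3
    · exact Or.inl (pow_eq_zero_iff two_ne_zero |>.1 h3)
    · exact Or.inr (pow_eq_zero_iff two_ne_zero |>.1 h3)
  filter_upwards [st1, st2 0, st2 1, st2 2] with s h1 k0 k1 k2
  have k0' : (s : E3) 0 = 0 → (s : E3) 1 = 0 ∨ (s : E3) 2 = 0 := k0
  have k1' : (s : E3) 1 = 0 → (s : E3) 2 = 0 ∨ (s : E3) 0 = 0 := k1
  have k2' : (s : E3) 2 = 0 → (s : E3) 0 = 0 ∨ (s : E3) 1 = 0 := k2
  have sad0 : (s : E3) 1 = 0 → (s : E3) 2 = 0 → Sad s := fun a b => ⟨0, a, b⟩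
  have sad1 : (s : E3) 2 = 0 → (s : E3) 0 = 0 → Sad s := fun a b => ⟨1, a, b⟩
  have sad2 : (s : E3) 0 = 0 → (s : E3) 1 = 0 → Sad s := fun a b => ⟨2, a, b⟩
  by_cases c0 : (s : E3) 0 = 0
  · rcases k0' c0 with h | h
    · exact Or.inr (sad2 c0 h)
    · exact Or.inr (sad1 h c0)
  by_cases c1 : (s : E3) 1 = 0
  · rcases k1' c1 with h | h
    · exact Or.inr (sad0 c1 h)
    · exact Or.inr (sad2 h c1)
  by_cases c2 : (s : E3) 2 = 0
  · rcases k2' c2 with h | h
    · exact Or.inr (sad1 c2 h)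
    · exact Or.inr (sad0 h c2)
  left
  have hgs : G s 0 + G s 1 + G s 2 = 3 := by rw [G0, G1, G2]; ring
  have hL : (s : E3) 0 ^ 2 * (s : E3) 1 ^ 2 * (s : E3) 2 ^ 2 ≠ 0 := by positivity
  have h2 : G s 0 * G s 1 * G s 2 = 1 := by
    apply mul_left_cancel₀ hL
    rw [h1, mul_one]
  obtain ⟨g0, g1, g2⟩ := (amgm (hU s 0) (hU s 1) (hU s 2) hgs).2 h2
  rw [G0] at g0
  rw [G1] at g1
  rw [G2] at g2
  exact ⟨by linarith, by linarith⟩

lemma fix_src {s : S2} (h : Src s) : f0 s = s := by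
  obtain ⟨h1, h2⟩ := h
  have hG : ∀ i, G s i = 1 := by
    intro i
    fin_cases i
    · show G s 0 = 1
      rw [G0, h2]; ring
    · show G s 1 = 1
      rw [G1, h1, h2]; ring
    · show G s 2 = 1
      rw [G2, h1]; ring
  refine Subtype.ext ?_
  rw [f0_coe]
  ext i
  rw [F_apply, hG i, Real.sqrt_one, mul_one]

lemma G_sad {s : S2} {j : Fin 3} (h1 : (s : E3) (j + 1) = 0) (h2 : (s : E3) (j + 2) = 0) :
    G s j = 1 := by
  unfold G; rw [h1, h2]; ring

lemma fin3 (j i : Fin 3) : i = j ∨ i = j + 1 ∨ i = j + 2 := by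
  fin_cases j <;> fin_cases i <;> simp

lemma fix_sad {s : S2} (h : Sad s) : f0 s = s := by
  obtain ⟨j, h1, h2⟩ := h
  refine Subtype.ext ?_
  rw [f0_coe]
  ext i
  rw [F_apply]
  rcases fin3 j i with rfl | rfl | rfl
  · rw [G_sad h1 h2, Real.sqrt_one, mul_one]
  · rw [h1, zero_mul]
  · rw [h2, zero_mul]

lemma ae_fix {ρ : Measure S2} [IsProbabilityMeasure ρ] (h : MeasurePreserving f0 ρ ρ) :
    ∀ᵐ s ∂ρ, f0 s = s := by
  filter_upwards [supp h] with s hs
  rcases hs with h1 | h1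
  · exact fix_src h1
  · exact fix_sad h1

/-- a map that is almost everywhere the identity has entropy zero -/
lemma entropy_zero {M : Type*} [MeasurableSpace M] {ρ : Measure M} [IsProbabilityMeasure ρ]
    {f : M → M} (h : ∀ᵐ x ∂ρ, f x = x) : ksEntropy ρ f = 0 := by
  unfold ksEntropy
  simp only [ENNReal.iSup_eq_zero]
  intro k P hP
  have hit : ∀ᵐ x ∂ρ, ∀ i : ℕ, f^[i] x = x := by
    filter_upwards [h] with x hx i
    exact Function.iterate_fixed hx i
  -- the entropy of the refinement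
  have hbd : ∀ n : ℕ, partEntropy ρ f P n ≤ ∑ _j : Fin k, (1 : ℝ) := by
    intro n
    rcases Nat.eq_zero_or_pos n with rfl | hn
    · unfold partEntropy
      have : ∀ w : Fin 0 → Fin k, Real.negMulLog
          (ρ.real {x | ∀ i : Fin 0, P (f^[(i : ℕ)] x) = w i}) = 0 := by
        intro w
        have : {x | ∀ i : Fin 0, P (f^[(i : ℕ)] x) = w i} = univ := by
          ext x; simp
        rw [this]
        simp
      simp only [this, Finset.sum_const_zero]
      positivity
    · unfold partEntropy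
      have hmeas : ∀ w : Fin n → Fin k, ρ.real {x | ∀ i : Fin n, P (f^[(i : ℕ)] x) = w i} =
          ρ.real {x | ∀ i : Fin n, P x = w i} := by
        intro w
        apply measureReal_congr
        filter_upwards [hit] with x hx
        apply propext
        show (∀ i : Fin n, P (f^[(i : ℕ)] x) = w i) ↔ ∀ i : Fin n, P x = w i
        simp only [hx]
      simp only [hmeas]
      let z : Fin n := ⟨0, hn⟩
      have h0 : ∀ w : Fin n → Fin k, (¬ ∃ j, w = fun _ => j) →
          Real.negMulLog (ρ.real {x | ∀ i : Fin n, P x = w i}) = 0 := by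
        intro w hw
        have : {x | ∀ i : Fin n, P x = w i} = ∅ := by
          ext x
          simp only [mem_ofPred_eq, mem_empty_iff_false, iff_false]
          intro hx
          exact hw ⟨P x, funext fun i => (hx i).symm⟩
        rw [this]; simp
      have h1 : ∀ t : ℝ, 0 ≤ t → t ≤ 1 → Real.negMulLog t ≤ 1 := by
        intro t ht ht1
        have := Real.negMulLog_le_one_sub_self ht
        linarith
      calc ∑ w : Fin n → Fin k, Real.negMulLog (ρ.real {x | ∀ i : Fin n, P x = w i})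
          = ∑ w ∈ Finset.univ.image (fun (j : Fin k) (_ : Fin n) => j),
            Real.negMulLog (ρ.real {x | ∀ i : Fin n, P x = w i}) := by
            symm
            apply Finset.sum_subset (Finset.subset_univ _)
            intro w _ hw
            apply h0
            rintro ⟨j, rfl⟩
            exact hw (Finset.mem_image_of_mem _ (Finset.mem_univ j))
        _ = ∑ j : Fin k, Real.negMulLog (ρ.real {x | ∀ _i : Fin n, P x = j}) := by
            rw [Finset.sum_image]
            intro a _ b _ hab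
            exact congrFun hab z
        _ ≤ ∑ _j : Fin k, (1 : ℝ) :=
            Finset.sum_le_sum fun j _ => h1 _ measureReal_nonneg measureReal_le_one
  have hlim : Tendsto (fun n : ℕ => ENNReal.ofReal (partEntropy ρ f P n / n)) atTop (𝓝 0) := by
    have h2 : Tendsto (fun n : ℕ => ENNReal.ofReal ((∑ _j : Fin k, (1 : ℝ)) / n)) atTop (𝓝 0) := by
      have := tendsto_const_div_atTop_nhds_zero_nat (∑ _j : Fin k, (1 : ℝ))
      have h3 := ENNReal.tendsto_ofReal this
      rwa [ENNReal.ofReal_zero] at h3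
    refine tendsto_of_tendsto_of_tendsto_of_le_of_le tendsto_const_nhds h2
      (fun n => bot_le) (fun n => ENNReal.ofReal_le_ofReal ?_)
    exact div_le_div_of_nonneg_right (hbd n) (Nat.cast_nonneg _)
  exact hlim.limsup_eq

end Pool.Agent.P8H77.EE
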